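import Pool.Agent.Lib.MP_562b47_mp.SYG.Lat

/-!
MP_562b47, slabs, passage from boxes to the lattice: one site, one box, the limit.
-/

open MeasureTheory Set Filter Topology Complex Matrix
open scoped Real ENNReal NNReal InnerProductSpace

set_option linter.unusedSectionVars false

namespace Pool.Agent.Lib.MP_562b47_mp.SYG

open Pool.Agent.Lib.MP_562b47_mp Pool.Agent.Lib.MP_562b47_mp.AL

variable {d : ℕ} {F : Type} [Fintype F] [DecidableEq F] [SX.Thin F]
variable {ι : Type*} [Fintype ι] [DecidableEq ι]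

/-- the potential of the sites `pos x` with absorption `a` -/
noncomputable def ub (c a : ℝ) (pos : ι → SX.St d F) (w : SX.St d F → ℝ) (x : ι) : ℂ :=
  (clp c (w (pos x)) : ℂ) - a * Complex.I

theorem measurable_ub (c a : ℝ) (pos : ι → SX.St d F) (x : ι) :
    Measurable fun w => ub c a pos w x := by
  unfold ub
  have h := (continuous_clp c).measurable
  fun_prop

/-- translation of `v` to the position of `p` -/
def tr (p v : SX.St d F) : SX.St d F := (p.1 + v.1, v.2)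

variable {κ : F → ℝ} {c E a : ℝ} {pos : ι → SX.St d F} {A : Matrix ι ι ℝ}

/-- mean square distance between the two Green functions -/
theorem mean_diff (hc : 0 < c) (ha : 0 < a) (hpos : Function.Injective pos)
    (hA : ∀ x y, A x y = if x = y then 2 * d + κ (pos x).2 - E else if SX.adj (pos x) (pos y) then -1 else 0)
    (T : Finset (SX.St d F)) (y : ι) (hy : ∀ v ∈ T, tr (pos y) v ∈ Set.range pos) :
    ∑ x, ∫⁻ w, ‖Gp κ c ⟨E, a⟩ w (pos x) (pos y) - GM A (ub c a pos w) x y‖ₑ ^ 2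
        ∂(PP (SX.St d F) c)
      ≤ ENNReal.ofReal (NB d F / a ^ 2) *
        ∑' v, (if v ∈ T then 0 else gf κ c ⟨E, a⟩ (pos y).2 v) := by
  classical
  have hz : 0 < (⟨E, a⟩ : ℂ).im := ha
  have hm : ∀ x, Measurable fun w =>
      ‖Gp κ c ⟨E, a⟩ w (pos x) (pos y) - GM A (ub c a pos w) x y‖ₑ ^ 2 :=
    fun x => ((((measurable_Gp hc hz (pos x) (pos y)).measurable).sub
      (measurable_GM' A (measurable_ub c a pos) x y)).enorm).pow_const 2
  rw [← lintegral_finsetSum _ fun x _ => hm x]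
  have h1 : ∀ w, ∑ x, ‖Gp κ c ⟨E, a⟩ w (pos x) (pos y) - GM A (ub c a pos w) x y‖ₑ ^ 2
      ≤ ENNReal.ofReal (NB d F / a ^ 2) *
        ∑' v, (if v ∈ Set.range pos then 0 else ‖Gp κ c ⟨E, a⟩ w v (pos y)‖ₑ ^ 2) := by
    intro w
    have h2 := det_compare hpos ha hA (fun x => clp c (w (pos x)))
      (ψ := fun v => Gp κ c ⟨E, a⟩ w v (pos y)) (Gp_summable hc w (pos y)) y (fun x => by
        have h3 := Gp_eq (κ := κ) (c := c) hc hz w (pos y) (pos x)
        have h4 : (if pos x = pos y then (1:ℂ) else 0) = if x = y then 1 else 0 := by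
          by_cases h : x = y
          · rw [if_pos h, if_pos (by rw [h])]
          · rw [if_neg h, if_neg (fun h' => h (hpos h'))]
        rw [← h4, ← h3]
        have h5 : (⟨E, a⟩ : ℂ) = (E : ℂ) + a * Complex.I := Complex.mk_eq_add_mul_I E a
        rw [h5]
        push_cast
        ring)
    have h6 : ∑ x, ‖Gp κ c ⟨E, a⟩ w (pos x) (pos y) - GM A (ub c a pos w) x y‖ₑ ^ 2
        = ENNReal.ofReal
          (∑ x, ‖Gp κ c ⟨E, a⟩ w (pos x) (pos y) - GM A (ub c a pos w) x y‖ ^ 2) := by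
      rw [ENNReal.ofReal_sum_of_nonneg fun x _ => by positivity]
      exact Finset.sum_congr rfl fun x _ => GX.enorm_sq_eq _
    have h7 : ∑' v, (if v ∈ Set.range pos then 0 else ‖Gp κ c ⟨E, a⟩ w v (pos y)‖ₑ ^ 2)
        = ENNReal.ofReal
          (∑' v, (if v ∈ Set.range pos then 0 else ‖Gp κ c ⟨E, a⟩ w v (pos y)‖ ^ 2)) := by
      rw [ENNReal.ofReal_tsum_of_nonneg]
      · refine tsum_congr fun v => ?_
        split_ifs
        · simp
        · exact GX.enorm_sq_eq _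
      · intro v
        split_ifs <;> positivity
      · refine Summable.of_nonneg_of_le (fun v => ?_) (fun v => ?_)
          (Gp_summable (κ := κ) (z := ⟨E, a⟩) hc w (pos y))
        · split_ifs <;> positivity
        · split_ifs
          · positivity
          · exact le_rfl
    have hNB : 0 ≤ NB d F / a ^ 2 := div_nonneg NB_nonneg (by positivity)
    rw [h6, h7, ← ENNReal.ofReal_mul hNB]
    refine ENNReal.ofReal_le_ofReal ?_
    convert h2 using 5
    rfl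
  refine (lintegral_mono h1).trans ?_
  rw [lintegral_const_mul' _ _ ENNReal.ofReal_ne_top]
  gcongr
  rw [lintegral_tsum fun v => by
    split_ifs
    · exact aemeasurable_const
    · exact (measurable_Gp_sq hc hz v (pos y)).aemeasurable]
  have h8 : ∑' v, (if v ∈ T then 0 else gf κ c ⟨E, a⟩ (pos y).2 v)
      = ∑' v : SX.St d F, (if (v.1 - (pos y).1, v.2) ∈ T then 0
        else gf κ c ⟨E, a⟩ (pos y).2 (v.1 - (pos y).1, v.2)) := by
    have h9 := (shE F (-(pos y).1)).tsum_eq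
      (fun v => if v ∈ T then 0 else gf κ c ⟨E, a⟩ (pos y).2 v)
    rw [← h9]
    refine tsum_congr fun v => ?_
    rw [shE_apply, ← sub_eq_add_neg]
  rw [h8]
  refine ENNReal.tsum_le_tsum fun v => ?_
  by_cases hv : v ∈ Set.range pos
  · simp [hv]
  · simp only [if_neg hv]
    rw [gf_eq hc hz v (pos y), if_neg]
    intro h9
    apply hv
    have h10 := hy _ h9
    unfold tr at h10
    simp only [add_sub_cancel] at h10
    exact h10

/-- one site deep inside the box -/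
theorem one_site (hc : 0 < c) (ha : 0 < a) (hpos : Function.Injective pos)
    (hA : ∀ x y, A x y = if x = y then 2 * d + κ (pos x).2 - E else if SX.adj (pos x) (pos y) then -1 else 0)
    (T S : Finset (SX.St d F)) (y : ι) (hyT : ∀ v ∈ T, tr (pos y) v ∈ Set.range pos)
    (hyS : ∀ v ∈ S, tr (pos y) v ∈ Set.range pos) {ε : ℝ≥0∞}
    (hT : ∑' v, (if v ∈ T then 0 else gf κ c ⟨E, a⟩ (pos y).2 v) ≤ ε) {θ : ℝ} (hθ : 0 < θ) :
    ∑ v ∈ S, ENNReal.ofReal (GX.nsq v.1) * gf κ c ⟨E, a⟩ (pos y).2 v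
      ≤ ENNReal.ofReal (1 + θ) * ∑ x, ENNReal.ofReal (GX.nsq ((pos x).1 - (pos y).1)) *
          ∫⁻ w, ‖GM A (ub c a pos w) x y‖ₑ ^ 2 ∂(PP (SX.St d F) c)
        + ENNReal.ofReal ((1 + 1 / θ) * (∑ v ∈ S, GX.nsq v.1) * (NB d F / a ^ 2)) * ε := by
  classical
  have hz : 0 < (⟨E, a⟩ : ℂ).im := ha
  have hNB : 0 ≤ NB d F / a ^ 2 := div_nonneg NB_nonneg (by positivity)
  set I : ι → ℝ≥0∞ := fun x => ∫⁻ w, ‖GM A (ub c a pos w) x y‖ₑ ^ 2 ∂(PP (SX.St d F) c) with hI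
  set J : ι → ℝ≥0∞ := fun x =>
    ∫⁻ w, ‖Gp κ c ⟨E, a⟩ w (pos x) (pos y) - GM A (ub c a pos w) x y‖ₑ ^ 2
    ∂(PP (SX.St d F) c) with hJ
  have hJs : ∑ x, J x ≤ ENNReal.ofReal (NB d F / a ^ 2) * ε := by
    refine (mean_diff hc ha hpos hA T y hyT).trans ?_
    gcongr
  have hex : ∀ v ∈ S, ∃ x, pos x = tr (pos y) v := fun v hv => hyS v hv
  set x0 : SX.St d F → ι := fun v => if h : ∃ x, pos x = tr (pos y) v then h.choose else y with hx0
  have hx0s : ∀ v ∈ S, pos (x0 v) = tr (pos y) v := by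
    intro v hv
    simp only [hx0]
    rw [dif_pos (hex v hv)]
    exact (hex v hv).choose_spec
  have hsub : ∀ v ∈ S, (pos (x0 v)).1 - (pos y).1 = v.1 ∧ (pos (x0 v)).2 = v.2 := by
    intro v hv
    rw [hx0s v hv]
    exact ⟨add_sub_cancel_left _ _, rfl⟩
  have hterm : ∀ v ∈ S, ENNReal.ofReal (GX.nsq v.1) * gf κ c ⟨E, a⟩ (pos y).2 v
      ≤ ENNReal.ofReal (1 + θ) *
          (ENNReal.ofReal (GX.nsq ((pos (x0 v)).1 - (pos y).1)) * I (x0 v))
        + ENNReal.ofReal ((1 + 1 / θ) * GX.nsq v.1) * (ENNReal.ofReal (NB d F / a ^ 2) * ε) := by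
    intro v hv
    have h1 : gf κ c ⟨E, a⟩ (pos y).2 v
        ≤ ENNReal.ofReal (1 + θ) * I (x0 v) + ENNReal.ofReal (1 + 1 / θ) * J (x0 v) := by
      have h2 : gf κ c ⟨E, a⟩ (pos y).2 v = ∫⁻ w, ‖Gp κ c ⟨E, a⟩ w (pos (x0 v)) (pos y)‖ₑ ^ 2
          ∂(PP (SX.St d F) c) := by
        rw [gf_eq hc hz, (hsub v hv).1, (hsub v hv).2]
      rw [h2, hI, hJ]
      simp only
      rw [← lintegral_const_mul' _ _ ENNReal.ofReal_ne_top,
        ← lintegral_const_mul' _ _ ENNReal.ofReal_ne_top, ← lintegral_add_left]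
      · exact lintegral_mono fun w => GX.enorm_sq_le _ _ hθ
      · exact (((measurable_GM' A (measurable_ub c a pos) _ _).enorm).pow_const 2).const_mul _
    have h3 : J (x0 v) ≤ ENNReal.ofReal (NB d F / a ^ 2) * ε :=
      (Finset.single_le_sum (f := J) (fun _ _ => zero_le) (Finset.mem_univ _)).trans hJs
    have hn := GX.nsq_nonneg v.1
    calc ENNReal.ofReal (GX.nsq v.1) * gf κ c ⟨E, a⟩ (pos y).2 v
        ≤ ENNReal.ofReal (GX.nsq v.1) * (ENNReal.ofReal (1 + θ) * I (x0 v)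
          + ENNReal.ofReal (1 + 1 / θ) * (ENNReal.ofReal (NB d F / a ^ 2) * ε)) := by
          gcongr
          exact h1.trans (by gcongr)
      _ = _ := by
          rw [(hsub v hv).1, ENNReal.ofReal_mul (p := 1 + 1 / θ) (by positivity)]
          ring
  refine (Finset.sum_le_sum hterm).trans ?_
  rw [Finset.sum_add_distrib, ← Finset.mul_sum, ← Finset.sum_mul]
  refine add_le_add ?_ (le_of_eq ?_)
  · gcongr
    have h4 : Set.InjOn x0 S := by
      intro v hv w hw h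
      have h5 := hsub v hv
      have h6 := hsub w hw
      rw [h] at h5
      exact Prod.ext (h5.1.symm.trans h6.1) (h5.2.symm.trans h6.2)
    have h7 : ∑ v ∈ S, ENNReal.ofReal (GX.nsq ((pos (x0 v)).1 - (pos y).1)) * I (x0 v)
        = ∑ x ∈ S.image x0, ENNReal.ofReal (GX.nsq ((pos x).1 - (pos y).1)) * I x :=
      (Finset.sum_image
        (f := fun x => ENNReal.ofReal (GX.nsq ((pos x).1 - (pos y).1)) * I x) h4).symm
    rw [h7]
    exact Finset.sum_le_sum_of_subset (Finset.subset_univ _)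
  · rw [← ENNReal.ofReal_sum_of_nonneg fun v _ => mul_nonneg (by positivity) (GX.nsq_nonneg v.1),
      ← Finset.mul_sum, ← mul_assoc, ← ENNReal.ofReal_mul]
    exact mul_nonneg (by positivity) (Finset.sum_nonneg fun v _ => GX.nsq_nonneg v.1)

theorem lint_GM (hc : 0 < c) (a : ℝ) (A : Matrix ι ι ℝ) (hpos : Function.Injective pos) (x y : ι) :
    ∫⁻ w, ‖GM A (ub c a pos w) x y‖ₑ ^ 2 ∂(PP (SX.St d F) c)
      = ∫⁻ V, ‖GM A (fun x => ((V x : ℝ) : ℂ) - a * Complex.I) x y‖ₑ ^ 2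
        ∂(Measure.pi fun _ : ι => unif c) := by
  have := unif_prob hc
  have hmp := BX.mp_coord (unif c) (g := fun x => pos x) (fun x y h => hpos h)
  have hcm := (continuous_clp c).measurable
  have hm : Measurable fun V : ι → ℝ =>
      ‖GM A (fun x => ((clp c (V x) : ℝ) : ℂ) - a * Complex.I) x y‖ₑ ^ 2 :=
    ((measurable_GM' A (u := fun (V : ι → ℝ) x => ((clp c (V x) : ℝ) : ℂ) - a * Complex.I)
      (fun x => by fun_prop) x y).enorm).pow_const 2
  have h1 := hmp.lintegral_comp hm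
  have h2 : ∫⁻ w, ‖GM A (ub c a pos w) x y‖ₑ ^ 2 ∂(PP (SX.St d F) c)
      = ∫⁻ V, ‖GM A (fun x => ((clp c (V x) : ℝ) : ℂ) - a * Complex.I) x y‖ₑ ^ 2
        ∂(Measure.pi fun _ : ι => unif c) := h1
  rw [h2]
  refine lintegral_congr_ae ?_
  have h3 : ∀ᵐ V ∂(Measure.pi fun _ : ι => unif c), ∀ x, V x ∈ Icc (-c) c := by
    rw [ae_all_iff]
    intro x
    exact (measurePreserving_eval (fun _ : ι => unif c) x).quasiMeasurePreserving.ae (ae_unif c)
  filter_upwards [h3] with V hV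
  have h4 : (fun x => ((clp c (V x) : ℝ) : ℂ) - a * Complex.I)
      = fun x => ((V x : ℝ) : ℂ) - a * Complex.I := by
    funext x
    rw [clp_of_mem (hV x)]
  rw [h4]

/-- one box -/
theorem one_box {J : Type*} [Fintype J] (hc : 0 < c) (ha : 0 < a) (hpos : Function.Injective pos)
    (hA : ∀ x y, A x y = if x = y then 2 * d + κ (pos x).2 - E else if SX.adj (pos x) (pos y) then -1 else 0)
    {ξ : J → ι → ℝ} (hξ : ∀ x y, GX.nsq ((pos x).1 - (pos y).1) ≤ ff ξ x y) (o : F)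
    (T S : Finset (SX.St d F)) (B : Finset ι) (hBo : ∀ y ∈ B, (pos y).2 = o)
    (hyT : ∀ y ∈ B, ∀ v ∈ T, tr (pos y) v ∈ Set.range pos)
    (hyS : ∀ y ∈ B, ∀ v ∈ S, tr (pos y) v ∈ Set.range pos) {ε : ℝ≥0∞}
    (hT : ∑' v, (if v ∈ T then 0 else gf κ c ⟨E, a⟩ o v) ≤ ε) {θ : ℝ} (hθ : 0 < θ) :
    (B.card : ℝ≥0∞) * (ENNReal.ofReal (a ^ 2) *
        ∑ v ∈ S, ENNReal.ofReal (GX.nsq v.1) * gf κ c ⟨E, a⟩ o v)
      ≤ ENNReal.ofReal (1 + θ) * ENNReal.ofReal (∫ V, DU A ξ (fun x => ((V x : ℝ) : ℂ)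
          - a * Complex.I) ∂(Measure.pi fun _ : ι => unif c))
        + (B.card : ℝ≥0∞) * (ENNReal.ofReal (a ^ 2) *
          (ENNReal.ofReal ((1 + 1 / θ) * (∑ v ∈ S, GX.nsq v.1) * (NB d F / a ^ 2)) * ε)) := by
  rw [BX.lint_DU hc ha (A_symm hA) ξ]
  set W : ι → ℝ≥0∞ := fun y => ∑ x, ENNReal.ofReal (ff ξ x y) *
        ∫⁻ V, ‖GM A (fun x => ((V x : ℝ) : ℂ) - a * Complex.I) x y‖ₑ ^ 2
        ∂(Measure.pi fun _ : ι => unif c) with hW
  have h1 : ∀ y ∈ B, ENNReal.ofReal (a ^ 2) *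
        ∑ v ∈ S, ENNReal.ofReal (GX.nsq v.1) * gf κ c ⟨E, a⟩ o v
      ≤ ENNReal.ofReal (1 + θ) * (ENNReal.ofReal (a ^ 2) * W y) + ENNReal.ofReal (a ^ 2) *
          (ENNReal.ofReal ((1 + 1 / θ) * (∑ v ∈ S, GX.nsq v.1) * (NB d F / a ^ 2)) * ε) := by
    intro y hy
    have h2 := one_site hc ha hpos hA T S y (hyT y hy) (hyS y hy) (ε := ε)
      (by rw [hBo y hy]; exact hT) hθ
    rw [hBo y hy] at h2
    have h3 : ∑ x, ENNReal.ofReal (GX.nsq ((pos x).1 - (pos y).1)) *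
          ∫⁻ w, ‖GM A (ub c a pos w) x y‖ₑ ^ 2 ∂(PP (SX.St d F) c) ≤ W y := by
      refine Finset.sum_le_sum fun x _ => ?_
      rw [lint_GM hc a A hpos x y]
      gcongr
      exact hξ x y
    calc ENNReal.ofReal (a ^ 2) * ∑ v ∈ S, ENNReal.ofReal (GX.nsq v.1) * gf κ c ⟨E, a⟩ o v
        ≤ ENNReal.ofReal (a ^ 2) * (ENNReal.ofReal (1 + θ) * W y
          + ENNReal.ofReal ((1 + 1 / θ) * (∑ v ∈ S, GX.nsq v.1) * (NB d F / a ^ 2)) * ε) := by
          gcongr
          exact h2.trans (by gcongr)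
      _ = _ := by ring
  have h4 := Finset.sum_le_sum h1
  rw [Finset.sum_const, Finset.sum_add_distrib, Finset.sum_const, nsmul_eq_mul, nsmul_eq_mul,
    ← Finset.mul_sum, ← Finset.mul_sum] at h4
  refine h4.trans ?_
  gcongr
  exact Finset.subset_univ _

/-! ### The cubic boxes -/

theorem nsq_le_ff_xb (d n : ℕ) (x y : (Fin d → Fin n) × F) :
    GX.nsq ((bp d n x).1 - (bp d n y).1) ≤ ff (xb d F n) x y := by
  unfold ff GX.nsq bp xb GX.bp
  rw [Fintype.sum_sum_type]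
  simp only [Sum.elim_inl, Sum.elim_inr]
  have h1 : ∑ i : Fin d, ((((fun i => ((x.1 i : ℕ) : ℤ)) - fun i => ((y.1 i : ℕ) : ℤ)) i : ℤ) : ℝ) ^ 2
      = ∑ i : Fin d, (((x.1 i : ℕ) : ℝ) - ((y.1 i : ℕ) : ℝ)) ^ 2 := by
    refine Finset.sum_congr rfl fun i _ => ?_
    simp
  rw [h1]
  have h2 : 0 ≤ ∑ h : F, ((if x.2 = h then (1:ℝ) else 0) - if y.2 = h then 1 else 0) ^ 2 :=
    Finset.sum_nonneg fun h _ => by positivity
  linarith

theorem box_bound (hc : 0 < c) (ha : 0 < a) {K : ℝ} {n₀ : ℕ}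
    (h : ∀ n ≥ n₀, ∫ V, DU (Ab d F κ E n) (xb d F n) (fun x => ((V x : ℝ) : ℂ) - a * Complex.I)
      ∂(Measure.pi fun _ : (Fin d → Fin n) × F => unif c) ≤ K * n ^ d) (o : F)
    (T S : Finset (SX.St d F)) {ρ : ℕ} (hT : ∀ v ∈ T, ∀ i, |v.1 i| ≤ ρ)
    (hS : ∀ v ∈ S, ∀ i, |v.1 i| ≤ ρ) {ε : ℝ≥0∞}
    (hTε : ∑' v, (if v ∈ T then 0 else gf κ c ⟨E, a⟩ o v) ≤ ε) {θ : ℝ} (hθ : 0 < θ) {k : ℕ}
    (hk : n₀ ≤ k) :
    ((k ^ d : ℕ) : ℝ≥0∞) * (ENNReal.ofReal (a ^ 2) *
        ∑ v ∈ S, ENNReal.ofReal (GX.nsq v.1) * gf κ c ⟨E, a⟩ o v)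
      ≤ ENNReal.ofReal (1 + θ) * ENNReal.ofReal (K * ((k + 2 * ρ : ℕ) : ℝ) ^ d)
        + ((k ^ d : ℕ) : ℝ≥0∞) * (ENNReal.ofReal (a ^ 2) *
          (ENNReal.ofReal ((1 + 1 / θ) * (∑ v ∈ S, GX.nsq v.1) * (NB d F / a ^ 2)) * ε)) := by
  classical
  set n := k + 2 * ρ with hn
  have hlt : ∀ i : Fin k, (i : ℕ) + ρ < n := fun i => by have := i.2; omega
  set e : (Fin d → Fin k) → (Fin d → Fin n) × F := fun p => (fun i => ⟨p i + ρ, hlt (p i)⟩, o)
    with he
  have hinj : Function.Injective e := by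
    intro p q h
    funext i
    have := congrFun (congrArg Prod.fst h) i
    simp only [he, Fin.mk.injEq] at this
    exact Fin.ext (by omega)
  have hrange : ∀ (p : Fin d → Fin k) (v : SX.St d F), (∀ i, |v.1 i| ≤ ρ) →
      tr (bp d n (e p)) v ∈ Set.range (bp (F := F) d n) := by
    intro p v h1
    have g1 : ∀ i, (((p i : ℕ) + ρ : ℤ) + v.1 i).toNat < n := by
      intro i
      have h2 := abs_le.mp (h1 i)
      have hp := (p i).2
      omega
    refine ⟨(fun i => ⟨_, g1 i⟩, v.2), ?_⟩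
    refine Prod.ext ?_ rfl
    funext i
    have h2 := abs_le.mp (h1 i)
    have hp := (p i).2
    simp only [bp, GX.bp, tr, he, Pi.add_apply]
    push_cast
    omega
  have h1 := one_box (ι := (Fin d → Fin n) × F) (pos := bp d n) (A := Ab d F κ E n)
    (ξ := xb d F n) hc ha (bp_inj d n) (fun x y => rfl) (nsq_le_ff_xb d n) o T S
    (Finset.univ.map ⟨e, hinj⟩)
    (fun y hy => by
      obtain ⟨p, _, rfl⟩ := Finset.mem_map.mp hy
      rfl)
    (fun y hy v hv => by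
      obtain ⟨p, _, rfl⟩ := Finset.mem_map.mp hy
      exact hrange p v (hT v hv))
    (fun y hy v hv => by
      obtain ⟨p, _, rfl⟩ := Finset.mem_map.mp hy
      exact hrange p v (hS v hv)) hTε hθ
  have h2 : (Finset.univ.map ⟨e, hinj⟩ : Finset ((Fin d → Fin n) × F)).card = k ^ d := by
    rw [Finset.card_map, Finset.card_univ]
    simp
  rw [h2] at h1
  refine h1.trans ?_
  gcongr
  exact h n (by omega)

/-- `E ∑_x |x|² |G((0,o),x;z)|²` -/
noncomputable def DE (d : ℕ) {F : Type} [Fintype F] [DecidableEq F] [SX.Thin F] (κ : F → ℝ) (c : ℝ) (o : F)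
    (z : ℂ) : ℝ≥0∞ :=
  ∫⁻ w, ∑' x : SX.St d F, ENNReal.ofReal (∑ i, (x.1 i : ℝ) ^ 2)
    * ‖Gr eb (HS κ c) w z ((0 : Fin d → ℤ), o) x‖ₑ ^ 2 ∂(PP (SX.St d F) c)

/-- **From boxes to the lattice.** -/
theorem lim_box (hc : 0 < c) (ha : 0 < a) {K : ℝ} (hK : 0 ≤ K) {n₀ : ℕ}
    (h : ∀ n ≥ n₀, ∫ V, DU (Ab d F κ E n) (xb d F n) (fun x => ((V x : ℝ) : ℂ) - a * Complex.I)
      ∂(Measure.pi fun _ : (Fin d → Fin n) × F => unif c) ≤ K * n ^ d) (o : F) :
    DE d κ c o ⟨E, a⟩ ≤ ENNReal.ofReal (K / a ^ 2) := by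
  classical
  have hz : 0 < (⟨E, a⟩ : ℂ).im := ha
  have hNB : 0 ≤ NB d F / a ^ 2 := div_nonneg NB_nonneg (by positivity)
  -- the functional as a sum
  have hDE : DE d κ c o ⟨E, a⟩
      = ∑' v : SX.St d F, ENNReal.ofReal (GX.nsq v.1) * gf κ c ⟨E, a⟩ o v := by
    unfold DE
    rw [lintegral_tsum]
    · refine tsum_congr fun v => ?_
      rw [lintegral_const_mul' _ _ ENNReal.ofReal_ne_top]
      congr 1
      unfold gf Gp
      refine lintegral_congr fun w => ?_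
      rw [(modelS d F κ hc).Gr_symm w hz]
    · intro x
      refine AEMeasurable.const_mul ?_ _
      exact ((((modelS d F κ hc).continuous_Gr continuous_id continuous_const (fun _ => hz)
        (0, o) x).enorm.measurable).pow_const 2).aemeasurable
  rw [hDE, ENNReal.tsum_eq_iSup_sum]
  refine iSup_le fun S => ?_
  set D : ℝ≥0∞ := ∑ v ∈ S, ENNReal.ofReal (GX.nsq v.1) * gf κ c ⟨E, a⟩ o v with hD
  have hDtop : D ≠ ⊤ := by
    rw [hD]
    exact (ENNReal.sum_lt_top.mpr fun v _ => ENNReal.mul_lt_top ENNReal.ofReal_lt_top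
      (lt_top_iff_ne_top.mpr (gf_ne_top hc hz o v))).ne
  -- the main inequality
  have hmain : ∀ θ : ℝ, 0 < θ → ∀ ε : ℝ, 0 < ε →
      a ^ 2 * D.toReal ≤ (1 + θ) * K
        + a ^ 2 * (((1 + 1 / θ) * (∑ v ∈ S, GX.nsq v.1) * (NB d F / a ^ 2)) * ε) := by
    intro θ hθ ε hε
    set Cθ : ℝ := (1 + 1 / θ) * (∑ v ∈ S, GX.nsq v.1) * (NB d F / a ^ 2) with hCθ
    have hCθ0 : 0 ≤ Cθ := mul_nonneg (mul_nonneg (by positivity)
      (Finset.sum_nonneg fun v _ => GX.nsq_nonneg v.1)) hNB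
    obtain ⟨T, hT⟩ := gf_tail (d := d) (κ := κ) (c := c) (z := ⟨E, a⟩) hc hz o
      (ε := ENNReal.ofReal ε) (by simpa using hε)
    obtain ⟨ρ, hρ⟩ : ∃ ρ : ℕ, ∀ v ∈ T ∪ S, ∀ i, |v.1 i| ≤ ρ := by
      refine ⟨∑ v ∈ T ∪ S, ∑ i, (v.1 i).natAbs, fun v hv i => ?_⟩
      have h1 := Finset.single_le_sum (f := fun v : SX.St d F => ∑ i, (v.1 i).natAbs)
        (fun _ _ => Nat.zero_le _) hv
      have h2 := Finset.single_le_sum (f := fun i => (v.1 i).natAbs)
        (fun _ _ => Nat.zero_le _) (Finset.mem_univ i)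
      rw [Int.abs_eq_natAbs]
      exact_mod_cast h2.trans h1
    have hk : ∀ k : ℕ, n₀ ≤ k → 1 ≤ k →
        a ^ 2 * D.toReal ≤ (1 + θ) * K * (1 + 2 * ρ / (k : ℝ)) ^ d + a ^ 2 * (Cθ * ε) := by
      intro k hk0 hk1
      have h1 := box_bound hc ha h o T S (ρ := ρ)
        (fun v hv => hρ v (Finset.mem_union_left _ hv))
        (fun v hv => hρ v (Finset.mem_union_right _ hv)) hT hθ hk0
      rw [← hD, ← hCθ] at h1
      have hkr : (0:ℝ) < k := by exact_mod_cast hk1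
      have h2 : ((k ^ d : ℕ) : ℝ≥0∞) * (ENNReal.ofReal (a ^ 2) * D)
          = ENNReal.ofReal ((k:ℝ) ^ d * (a ^ 2 * D.toReal)) := by
        rw [ENNReal.ofReal_mul (by positivity), ENNReal.ofReal_mul (by positivity),
          ENNReal.ofReal_toReal hDtop]
        congr 1
        rw [← ENNReal.ofReal_natCast]
        push_cast
        rfl
      have h3 : ((k ^ d : ℕ) : ℝ≥0∞) * (ENNReal.ofReal (a ^ 2) * (ENNReal.ofReal Cθ * ENNReal.ofReal ε))
          = ENNReal.ofReal ((k:ℝ) ^ d * (a ^ 2 * (Cθ * ε))) := by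
        rw [ENNReal.ofReal_mul (p := (k:ℝ) ^ d) (by positivity),
          ENNReal.ofReal_mul (p := a ^ 2) (by positivity), ENNReal.ofReal_mul (p := Cθ) hCθ0]
        congr 1
        rw [← ENNReal.ofReal_natCast]
        push_cast
        rfl
      have hKn : 0 ≤ K * ((k + 2 * ρ : ℕ) : ℝ) ^ d := by positivity
      rw [h2, h3, ← ENNReal.ofReal_mul (by positivity), ← ENNReal.ofReal_add (by positivity)
        (by positivity)] at h1
      rw [ENNReal.ofReal_le_ofReal_iff (by positivity)] at h1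
      have h4 : ((k + 2 * ρ : ℕ) : ℝ) = k * (1 + 2 * ρ / (k : ℝ)) := by
        push_cast
        field_simp
      rw [h4, mul_pow] at h1
      have h5 : (k:ℝ) ^ d * (a ^ 2 * D.toReal)
          ≤ (k:ℝ) ^ d * ((1 + θ) * K * (1 + 2 * ρ / (k : ℝ)) ^ d + a ^ 2 * (Cθ * ε)) := by
        refine h1.trans (le_of_eq ?_)
        ring
      exact le_of_mul_le_mul_left h5 (by positivity)
    have hlim : Tendsto (fun k : ℕ => (1 + θ) * K * (1 + 2 * ρ / (k : ℝ)) ^ d + a ^ 2 * (Cθ * ε)) atTop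
        (𝓝 ((1 + θ) * K * (1 + 0) ^ d + a ^ 2 * (Cθ * ε))) := by
      refine Tendsto.add_const _ (Tendsto.const_mul _ (Tendsto.pow (Tendsto.const_add _ ?_) d))
      exact tendsto_const_div_atTop_nhds_zero_nat _
    have h6 := ge_of_tendsto hlim (b := a ^ 2 * D.toReal) (by
      filter_upwards [eventually_ge_atTop (max n₀ 1)] with k hk'
      exact hk k ((le_max_left _ _).trans hk') ((le_max_right _ _).trans hk'))
    simpa using h6
  -- first ε → 0, then θ → 0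
  have h7 : ∀ θ : ℝ, 0 < θ → a ^ 2 * D.toReal ≤ (1 + θ) * K := by
    intro θ hθ
    refine le_of_forall_pos_le_add fun δ hδ => ?_
    set Cθ : ℝ := (1 + 1 / θ) * (∑ v ∈ S, GX.nsq v.1) * (NB d F / a ^ 2) with hCθ
    have hCθ0 : 0 ≤ Cθ := mul_nonneg (mul_nonneg (by positivity)
      (Finset.sum_nonneg fun v _ => GX.nsq_nonneg v.1)) hNB
    have h8 := hmain θ hθ (δ / (a ^ 2 * Cθ + 1)) (by positivity)
    refine h8.trans ?_
    gcongr
    rw [← hCθ]
    have h9 : a ^ 2 * (Cθ * (δ / (a ^ 2 * Cθ + 1))) = δ * ((a ^ 2 * Cθ) / (a ^ 2 * Cθ + 1)) := by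
      ring
    rw [h9]
    have h10 : (a ^ 2 * Cθ) / (a ^ 2 * Cθ + 1) ≤ 1 := by
      rw [div_le_one (by positivity)]
      linarith
    nlinarith
  have h11 : a ^ 2 * D.toReal ≤ K := by
    refine le_of_forall_pos_le_add fun δ hδ => ?_
    have h12 := h7 (δ / (K + 1)) (by positivity)
    refine h12.trans ?_
    have h13 : (1 + δ / (K + 1)) * K = K + δ * (K / (K + 1)) := by ring
    rw [h13]
    have h14 : K / (K + 1) ≤ 1 := by
      rw [div_le_one (by positivity)]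
      linarith
    nlinarith
  rw [← ENNReal.ofReal_toReal hDtop]
  refine ENNReal.ofReal_le_ofReal ?_
  rw [le_div_iff₀ (by positivity)]
  linarith

end Pool.Agent.Lib.MP_562b47_mp.SYG
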