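import Pool.Agent.Lib.MP_562b47_mp.SYG.Op

/-!
MP_562b47, `ℤ^d × F`: the spectrum is contained in the union of the intervals
`[lam - c, 4 d + lam + c]`, `lam` the eigenvalues of the fibre operator.

Proof.  `M : Matrix F F ℝ`, `M f g = (if f = g then κ f else 0) - (if Thin.B f g then 1 else 0)`, is
symmetric, `(M *ᵥ φ) f = κ f * φ f - tb φ f`; `hM : M.IsHermitian`, `lam i = hM.eigenvalues i`,
`φ i` the orthonormal eigenvectors (index `i : F`).  `FEv κ l` iff `l` is one of the `lam i`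
(finiteness, nonemptiness).

Spectrum.  Let `E` be outside all `Icc (lam i - c) (4 d + lam i + c)`.  Put `s i = 1` if `E < lam i - c`,
`s i = -1` otherwise (then `4 d + lam i + c < E`), `J f g = ∑ i, s i * φ i f * φ i g` (real symmetric,
`J * J = 1`), `𝒥 = ∑ f, ∑ g, (J f g : ℂ) • PfL f g`, so `(𝒥 u) (x, f) = ∑ g, J f g * u (x, g)`
(`PfL_apply`), `𝒥` is symmetric (`inner_PfL`), `𝒥 ∘ 𝒥 = 1`.  Write `HS - E = K0 + (M - E) + potL c w`,
`K0 = ∑ i (2 - permL (shE (uv i)) - permL (shE (-uv i)))` (this is `KS` without the fibre part), which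
commutes with `𝒥`, and `0 ≤ re ⟨v, K0 v⟩ ≤ 4 d ‖v‖²` for all `v` (see `re_KS` in `SG/Op.lean`, same
computation, `ASF.re_permL_le`).  With `P± = (1 ± 𝒥) / 2` (orthogonal projections, `𝒥 = P+ - P-`):
`re ⟨𝒥 u, K0 u⟩ = re ⟨P+ u, K0 P+ u⟩ - re ⟨P- u, K0 P- u⟩ ≥ - 4 d ‖P- u‖²`.
For `w : F → ℂ`, `a i = ∑ f, φ i f * w f`: `∑ f, ‖w f‖² = ∑ i, ‖a i‖²`,
`∑ f, conj (J w f) * ((M - E) w) f = ∑ i, s i * (lam i - E) * ‖a i‖²`,
`∑ f, ‖(P- w) f‖² = ∑ over s i = -1 of ‖a i‖²`; hence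
`re ⟨𝒥 u, (KS - E) u⟩ ≥ ∑' x, ∑ i, δ i * ‖a i x‖² ≥ (c + ε) ‖u‖²`, where `δ i = lam i - E` if `s i = 1`,
`δ i = E - lam i - 4 d` if `s i = -1`, and `c + ε = min δ i > c`.  (Sums over `x`: as in `re_tbL_le`
in `SG/Op.lean`.)  `|re ⟨𝒥 u, potL c w u⟩| ≤ ‖𝒥 u‖ * c * ‖u‖ = c ‖u‖²`.
So `re ⟨𝒥 (HS - E) u, u⟩ ≥ ε ‖u‖²` and `𝒥 ∘ (HS - E)` is a unit
(`ContinuousLinearMap.isUnit_of_forall_le_norm_inner_map`), `𝒥` is a unit (`𝒥 ∘ 𝒥 = 1`), hence `HS - E`
is a unit and `E` is not in the spectrum.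
-/

open MeasureTheory Set Filter Topology Complex
open scoped Real ENNReal NNReal InnerProductSpace

set_option linter.unusedSectionVars false

namespace Pool.Agent.Lib.MP_562b47_mp.SYG

open Pool.Agent.Lib.MP_562b47_mp

variable {d : ℕ} {F : Type} [Fintype F] [DecidableEq F] [SX.Thin F]

open Matrix in
/-- the fibre matrix -/
private noncomputable def fM (κ : F → ℝ) : Matrix F F ℝ :=
  fun f g => (if f = g then κ f else 0) - (if SX.Thin.B f g then 1 else 0)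

private theorem fM_herm (κ : F → ℝ) : (fM κ).IsHermitian := by
  ext f g
  rw [Matrix.conjTranspose_apply]
  simp only [fM, star_trivial]
  congr 1
  · by_cases h : f = g
    · subst h; rfl
    · rw [if_neg h, if_neg (fun h' => h h'.symm)]
  · by_cases h : SX.Thin.B f g
    · rw [if_pos h, if_pos (SX.Thin.symm h)]
    · rw [if_neg h, if_neg (fun h' => h (SX.Thin.symm h'))]

private theorem fM_mulVec (κ φ : F → ℝ) (f : F) :
    Matrix.mulVec (fM κ) φ f = κ f * φ f - SX.tb φ f := by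
  simp only [Matrix.mulVec, dotProduct, fM, SX.tb, sub_mul, ite_mul, zero_mul, one_mul,
    Finset.sum_sub_distrib]
  congr 1
  rw [Finset.sum_ite_eq Finset.univ f]
  simp

theorem FEv_finite (κ : F → ℝ) : {l | FEv κ l}.Finite := by
  refine (Module.End.finite_hasEigenvalue (Matrix.toLin' (fM κ))).subset ?_
  rintro l ⟨φ, h0, h⟩
  refine Module.End.hasEigenvalue_of_hasEigenvector (x := φ) ⟨?_, h0⟩
  rw [Module.End.mem_eigenspace_iff, Matrix.toLin'_apply]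
  funext f
  rw [fM_mulVec, h]
  rfl

private theorem fM_eig (κ : F → ℝ) : ∃ (lam : F → ℝ) (φ : F → F → ℝ),
    (∀ i f, κ f * φ i f - SX.tb (φ i) f = lam i * φ i f) ∧ (∀ i, ∑ f, φ i f * φ i f = 1) ∧
    (∀ f g, ∑ i, φ i f * φ i g = if f = g then 1 else 0) := by
  refine ⟨(fM_herm κ).eigenvalues, fun i f => (fM_herm κ).eigenvectorBasis i f, ?_, ?_, ?_⟩
  · intro i f
    have h := congrFun ((fM_herm κ).mulVec_eigenvectorBasis i) f
    rw [fM_mulVec] at h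
    exact h
  · intro i
    have h := (fM_herm κ).eigenvectorBasis.orthonormal.1 i
    have h2 := EuclideanSpace.real_norm_sq_eq ((fM_herm κ).eigenvectorBasis i)
    rw [h] at h2
    rw [one_pow] at h2
    rw [h2]
    exact Finset.sum_congr rfl fun f _ => by ring
  · intro f g
    have h := (Matrix.mem_unitaryGroup_iff).1 ((fM_herm κ).eigenvectorUnitary).2
    have h1 := congrFun (congrFun h f) g
    rw [Matrix.mul_apply, Matrix.one_apply] at h1
    rw [← h1]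
    refine Finset.sum_congr rfl fun i _ => ?_
    rw [Matrix.star_apply]
    rfl

theorem FEv_nonempty [Nonempty F] (κ : F → ℝ) : ∃ l, FEv κ l := by
  obtain ⟨lam, φ, h1, h2, -⟩ := fM_eig κ
  obtain ⟨i⟩ := ‹Nonempty F›
  refine ⟨lam i, φ i, ?_, h1 i⟩
  intro h0
  have := h2 i
  rw [h0] at this
  simp at this

/-- the projection onto a fibre mode -/
private noncomputable def Pp (d : ℕ) (φ : F → ℝ) : L2 (SX.St d F) →L[ℂ] L2 (SX.St d F) :=
  ∑ f : F, ∑ g : F, ((φ f : ℂ) * (φ g : ℂ)) • PfL f g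

private theorem Pp_apply (φ : F → ℝ) (u : L2 (SX.St d F)) (x : SX.St d F) :
    Pp d φ u x = (φ x.2 : ℂ) * ∑ g, (φ g : ℂ) * u (x.1, g) := by
  unfold Pp
  simp only [_root_.sum_apply, lp.coeFn_sum, Finset.sum_apply, _root_.smul_apply, lp.coeFn_smul,
    Pi.smul_apply, smul_eq_mul]
  rw [Finset.sum_eq_single x.2]
  · rw [Finset.mul_sum]
    refine Finset.sum_congr rfl fun g _ => ?_
    rw [PfL_apply, if_pos rfl]
    ring
  · intro f _ hf
    refine Finset.sum_eq_zero fun g _ => ?_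
    rw [PfL_apply, if_neg (Ne.symm hf), mul_zero]
  · intro h
    exact absurd (Finset.mem_univ _) h

private theorem inner_Pp (φ : F → ℝ) (u v : L2 (SX.St d F)) :
    ⟪Pp d φ u, v⟫_ℂ = ⟪u, Pp d φ v⟫_ℂ := by
  unfold Pp
  simp only [_root_.sum_apply, sum_inner, inner_sum, _root_.smul_apply, inner_smul_left,
    inner_smul_right, map_mul, Complex.conj_ofReal]
  rw [Finset.sum_comm]
  refine Finset.sum_congr rfl fun g _ => Finset.sum_congr rfl fun f _ => ?_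
  rw [inner_PfL]
  ring

private theorem Pp_idem {φ : F → ℝ} (h : ∑ f, φ f * φ f = 1) (u : L2 (SX.St d F)) :
    Pp d φ (Pp d φ u) = Pp d φ u := by
  ext x
  rw [Pp_apply, Pp_apply]
  congr 1
  simp only [Pp_apply]
  have h1 : ∀ g, (φ g : ℂ) * ((φ g : ℂ) * ∑ g', (φ g' : ℂ) * u (x.1, g'))
      = ((φ g * φ g : ℝ) : ℂ) * ∑ g', (φ g' : ℂ) * u (x.1, g') := fun g => by
    push_cast; ring
  rw [Finset.sum_congr rfl fun g _ => h1 g, ← Finset.sum_mul, ← Complex.ofReal_sum, h]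
  simp

private theorem Pp_sum {φ : F → F → ℝ} (h : ∀ f g, ∑ i, φ i f * φ i g = if f = g then 1 else 0)
    (u : L2 (SX.St d F)) : ∑ i, Pp d (φ i) u = u := by
  ext x
  rw [lp.coeFn_sum, Finset.sum_apply]
  simp only [Pp_apply, Finset.mul_sum]
  rw [Finset.sum_comm]
  have h1 : ∀ g, ∑ i, (φ i x.2 : ℂ) * ((φ i g : ℂ) * u (x.1, g))
      = (if x.2 = g then 1 else 0) * u (x.1, g) := fun g => by
    have h2 := h x.2 g
    have h3 : (∑ i, (φ i x.2 : ℂ) * (φ i g : ℂ)) = if x.2 = g then 1 else 0 := by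
      have := congrArg (fun r : ℝ => (r : ℂ)) h2
      simp only [Complex.ofReal_sum, Complex.ofReal_mul] at this
      rw [this]
      split_ifs <;> simp
    rw [← h3, Finset.sum_mul]
    exact Finset.sum_congr rfl fun i _ => by ring
  rw [Finset.sum_congr rfl fun g _ => h1 g]
  simp

/-- the part along `ℤ^d` -/
private noncomputable def K0 (d : ℕ) (F : Type) [Fintype F] [DecidableEq F] [SX.Thin F] :
    L2 (SX.St d F) →L[ℂ] L2 (SX.St d F) :=
  ∑ i : Fin d, ((2:ℂ) • ContinuousLinearMap.id ℂ (L2 (SX.St d F)) - permL (shE F (uv d i))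
    - permL (shE F (-(uv d i))))

/-- the fibre part -/
private noncomputable def KF (d : ℕ) (F : Type) [Fintype F] [DecidableEq F] [SX.Thin F] (κ : F → ℝ) :
    L2 (SX.St d F) →L[ℂ] L2 (SX.St d F) :=
  (potL (kb κ) fun x => κ x.2) - tbL d F

private theorem KS_split (κ : F → ℝ) : KS d F κ = K0 d F + KF d F κ := rfl

private theorem re_K0 (u : L2 (SX.St d F)) :
    0 ≤ (⟪u, K0 d F u⟫_ℂ).re ∧ (⟪u, K0 d F u⟫_ℂ).re ≤ 4 * d * ‖u‖ ^ 2 := by
  have h1 : (⟪u, K0 d F u⟫_ℂ).re = ∑ i : Fin d, (2 * ‖u‖ ^ 2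
      - (⟪u, permL (shE F (uv d i)) u⟫_ℂ).re
      - (⟪u, permL (shE F (-(uv d i))) u⟫_ℂ).re) := by
    unfold K0
    rw [_root_.sum_apply, inner_sum, Complex.re_sum]
    refine Finset.sum_congr rfl fun i _ => ?_
    simp only [_root_.sub_apply, _root_.smul_apply,
      ContinuousLinearMap.id_apply, inner_sub_right, inner_smul_right, Complex.sub_re]
    rw [inner_self_eq_norm_sq_to_K]
    have : ((2:ℂ) * (((‖u‖ : ℝ) : ℂ)) ^ 2).re = 2 * ‖u‖ ^ 2 := by
      rw [show (2:ℂ) = ((2:ℝ):ℂ) by norm_num, Complex.re_ofReal_mul, ASF.ofReal_sq_re]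
    rw [← this]
    rfl
  rw [h1]
  have h2 : ∀ i : Fin d, 0 ≤ 2 * ‖u‖ ^ 2 - (⟪u, permL (shE F (uv d i)) u⟫_ℂ).re
      - (⟪u, permL (shE F (-(uv d i))) u⟫_ℂ).re := fun i => by
    have a1 := abs_le.mp (ASF.re_permL_le (shE F (uv d i)) u)
    have a2 := abs_le.mp (ASF.re_permL_le (shE F (-(uv d i))) u)
    linarith [a1.2, a2.2]
  have h3 : ∀ i : Fin d, 2 * ‖u‖ ^ 2 - (⟪u, permL (shE F (uv d i)) u⟫_ℂ).re
      - (⟪u, permL (shE F (-(uv d i))) u⟫_ℂ).re ≤ 4 * ‖u‖ ^ 2 := fun i => by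
    have a1 := abs_le.mp (ASF.re_permL_le (shE F (uv d i)) u)
    have a2 := abs_le.mp (ASF.re_permL_le (shE F (-(uv d i))) u)
    linarith [a1.1, a2.1]
  refine ⟨Finset.sum_nonneg fun i _ => h2 i, ?_⟩
  calc _ ≤ ∑ _i : Fin d, 4 * ‖u‖ ^ 2 := Finset.sum_le_sum fun i _ => h3 i
    _ = 4 * d * ‖u‖ ^ 2 := by
      rw [Finset.sum_const, Finset.card_univ, Fintype.card_fin, nsmul_eq_mul]; ring

private theorem permL_Pp (φ : F → ℝ) (v : Fin d → ℤ) (u : L2 (SX.St d F)) :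
    permL (shE F v) (Pp d φ u) = Pp d φ (permL (shE F v) u) := by
  ext x
  rw [permL_apply, Pp_apply, Pp_apply]
  rfl

private theorem K0_Pp (φ : F → ℝ) (u : L2 (SX.St d F)) :
    K0 d F (Pp d φ u) = Pp d φ (K0 d F u) := by
  unfold K0
  simp only [_root_.sum_apply, _root_.sub_apply, _root_.smul_apply,
    ContinuousLinearMap.id_apply, map_sum, map_sub, map_smul, permL_Pp]

private theorem KF_apply (κ : F → ℝ) (u : L2 (SX.St d F)) (x : SX.St d F) :
    KF d F κ u x = (κ x.2 : ℂ) * u x - SX.tb (fun g => u (x.1, g)) x.2 := by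
  unfold KF
  rw [_root_.sub_apply, lp.coeFn_sub, Pi.sub_apply, potL_apply, clp_kb, tbL_apply]

private theorem inner_KF (κ : F → ℝ) (u v : L2 (SX.St d F)) :
    ⟪KF d F κ u, v⟫_ℂ = ⟪u, KF d F κ v⟫_ℂ := by
  unfold KF
  simp only [_root_.sub_apply, inner_sub_left, inner_sub_right, inner_tbL, inner_potL]

private theorem KF_Pp {κ φ : F → ℝ} {l : ℝ} (h : ∀ f, κ f * φ f - SX.tb φ f = l * φ f)
    (u : L2 (SX.St d F)) : KF d F κ (Pp d φ u) = (l : ℂ) • Pp d φ u := by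
  ext x
  rw [KF_apply, lp.coeFn_smul, Pi.smul_apply, smul_eq_mul]
  simp only [Pp_apply]
  have h1 : SX.tb (fun g => (φ g : ℂ) * ∑ g', (φ g' : ℂ) * u (x.1, g')) x.2
      = ((SX.tb φ x.2 : ℝ) : ℂ) * ∑ g', (φ g' : ℂ) * u (x.1, g') := by
    unfold SX.tb
    rw [Complex.ofReal_sum, Finset.sum_mul]
    refine Finset.sum_congr rfl fun g _ => ?_
    split_ifs <;> simp
  rw [h1]
  have h2 := congrArg (fun r : ℝ => (r : ℂ)) (h x.2)
  simp only [Complex.ofReal_sub, Complex.ofReal_mul] at h2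
  linear_combination (∑ g', (φ g' : ℂ) * u (x.1, g')) * h2

private theorem Pp_KF {κ φ : F → ℝ} {l : ℝ} (h : ∀ f, κ f * φ f - SX.tb φ f = l * φ f)
    (u : L2 (SX.St d F)) : Pp d φ (KF d F κ u) = (l : ℂ) • Pp d φ u := by
  refine ext_inner_right ℂ fun v => ?_
  rw [inner_Pp, inner_KF, KF_Pp h, inner_smul_right, inner_smul_left, Complex.conj_ofReal, inner_Pp]

/-- a self-adjoint operator bounded from below in norm has no spectrum at `E` -/
private theorem not_mem_of_norm {V : Type*} [NormedAddCommGroup V] [InnerProductSpace ℂ V]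
    [CompleteSpace V] {H : V →L[ℂ] V} (hH : ∀ u v, ⟪H u, v⟫_ℂ = ⟪u, H v⟫_ℂ) {E ε : ℝ} (hε : 0 < ε)
    (h : ∀ u, ε * ‖u‖ ≤ ‖H u - (E : ℂ) • u‖) : E ∉ spectrum ℝ H := by
  have hal : ∀ u : V, (algebraMap ℝ (V →L[ℂ] V) E) u = (E : ℂ) • u := by
    intro u
    rw [Algebra.algebraMap_eq_smul_one]
    simp
  rw [spectrum.notMem_iff]
  set T : V →L[ℂ] V := algebraMap ℝ (V →L[ℂ] V) E - H with hT
  have hTa : ∀ u, T u = (E : ℂ) • u - H u := fun u => by
    rw [hT, _root_.sub_apply, hal]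
  have hTs : ∀ u v, ⟪T u, v⟫_ℂ = ⟪u, T v⟫_ℂ := fun u v => by
    rw [hTa, hTa, inner_sub_left, inner_sub_right, inner_smul_left, inner_smul_right,
      Complex.conj_ofReal, hH]
  have hu : IsUnit (T ^ 2) := by
    have hc : (0 : ℝ≥0) < Real.toNNReal (ε ^ 2) := Real.toNNReal_pos.2 (pow_pos hε 2)
    refine ContinuousLinearMap.isUnit_of_forall_le_norm_inner_map (T ^ 2) hc fun x => ?_
    rw [Real.coe_toNNReal _ (pow_pos hε 2).le]
    have h1 : ⟪(T ^ 2) x, x⟫_ℂ = ⟪T x, T x⟫_ℂ := by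
      rw [pow_two, mul_apply_eq_comp, hTs]
    rw [h1, inner_self_eq_norm_sq_to_K, norm_pow]
    have h2 : ‖((‖T x‖ : ℝ) : ℂ)‖ = ‖T x‖ := by simp
    have h3 : ε * ‖x‖ ≤ ‖T x‖ := by
      rw [hTa, norm_sub_rev]
      exact h x
    have h4 : 0 ≤ ε * ‖x‖ := by positivity
    show ‖x‖ ^ 2 * ε ^ 2 ≤ ‖((‖T x‖ : ℝ) : ℂ)‖ ^ 2
    rw [h2]
    nlinarith [h3, h4]
  exact (isUnit_pow_iff (by norm_num)).1 hu

/-- the bound below in the presence of an orthogonal decomposition -/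
private theorem norm_low {V : Type*} [NormedAddCommGroup V] [InnerProductSpace ℂ V] {ι : Type*}
    [Fintype ι] (Q : ι → V →L[ℂ] V) (hs : ∀ i u v, ⟪Q i u, v⟫_ℂ = ⟪u, Q i v⟫_ℂ)
    (hi : ∀ i u, Q i (Q i u) = Q i u) (h1 : ∀ u, ∑ i, Q i u = u) (T : V →L[ℂ] V)
    (hc : ∀ i u, Q i (T u) = T (Q i u)) {δ : ℝ} (hδ : 0 ≤ δ)
    (hb : ∀ i u, δ * ‖Q i u‖ ≤ ‖T (Q i u)‖) (u : V) : δ * ‖u‖ ≤ ‖T u‖ := by
  have hn : ∀ v : V, ‖v‖ ^ 2 = ∑ i, ‖Q i v‖ ^ 2 := by
    intro v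
    have e1 : ⟪v, v⟫_ℂ = ∑ i, ⟪Q i v, Q i v⟫_ℂ := by
      conv_lhs => rw [← h1 v]
      rw [sum_inner, h1]
      refine Finset.sum_congr rfl fun i _ => ?_
      rw [hs i v (Q i v), hi, hs]
    have e2 := congrArg RCLike.re e1
    rw [map_sum] at e2
    simp only [inner_self_eq_norm_sq] at e2
    exact e2
  have h2 : (δ * ‖u‖) ^ 2 ≤ ‖T u‖ ^ 2 := by
    rw [mul_pow, hn u, hn (T u), Finset.mul_sum]
    refine Finset.sum_le_sum fun i _ => ?_
    rw [hc, ← mul_pow]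
    exact pow_le_pow_left₀ (by positivity) (hb i u) 2
  exact le_of_sq_le_sq h2 (norm_nonneg _)

/-- the spectrum is contained in the union of the intervals `[lam - c, 4 d + lam + c]` -/
theorem spectrum_HS [Nonempty F] {κ : F → ℝ} {c : ℝ} (hc : 0 < c) (w : SX.St d F → ℝ) {E : ℝ}
    (hE : E ∈ spectrum ℝ (HS κ c w)) : ∃ l, FEv κ l ∧ E ∈ Icc (l - c) (4 * d + l + c) := by
  obtain ⟨lam, φ, h1, h2, h3⟩ := fM_eig κ
  by_contra hcon
  have hev : ∀ i, FEv κ (lam i) := fun i => by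
    refine ⟨φ i, ?_, h1 i⟩
    intro h0
    have := h2 i
    rw [h0] at this
    simp at this
  have hout : ∀ i, E < lam i - c ∨ 4 * d + lam i + c < E := fun i => by
    by_contra h'
    rw [not_or, not_lt, not_lt] at h'
    exact hcon ⟨lam i, hev i, h'⟩
  -- a common gap
  have hgap : ∃ δ, c < δ ∧ ∀ i, δ ≤ lam i - E ∨ 4 * d + lam i + δ ≤ E := by
    have hg : ∀ i, ∃ δ, c < δ ∧ (δ ≤ lam i - E ∨ 4 * d + lam i + δ ≤ E) := fun i => by
      rcases hout i with h | h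
      · exact ⟨lam i - E, by linarith, Or.inl le_rfl⟩
      · exact ⟨E - 4 * d - lam i, by linarith, Or.inr (by linarith)⟩
    choose δ hδ1 hδ2 using hg
    obtain ⟨i0, -, hi0⟩ := Finset.exists_min_image (Finset.univ : Finset F) δ Finset.univ_nonempty
    refine ⟨δ i0, hδ1 i0, fun i => ?_⟩
    have := hi0 i (Finset.mem_univ _)
    rcases hδ2 i with h | h
    · exact Or.inl (this.trans h)
    · exact Or.inr (by linarith)
  obtain ⟨δ, hδ, hgap⟩ := hgap
  have hδ0 : 0 ≤ δ := by linarith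
  -- the bound for the free operator
  set T : L2 (SX.St d F) →L[ℂ] L2 (SX.St d F) :=
    KS d F κ - (E : ℂ) • ContinuousLinearMap.id ℂ (L2 (SX.St d F)) with hT
  have hTa : ∀ u, T u = KS d F κ u - (E : ℂ) • u := fun u => by
    rw [hT, _root_.sub_apply, _root_.smul_apply, ContinuousLinearMap.id_apply]
  have hKP : ∀ i u, Pp d (φ i) (KS d F κ u) = KS d F κ (Pp d (φ i) u) := fun i u => by
    rw [KS_split, _root_.add_apply, _root_.add_apply, map_add, K0_Pp, Pp_KF (h1 i), KF_Pp (h1 i)]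
  have hcT : ∀ i u, Pp d (φ i) (T u) = T (Pp d (φ i) u) := fun i u => by
    rw [hTa, hTa, map_sub, map_smul, hKP]
  have hlow : ∀ u, δ * ‖u‖ ≤ ‖T u‖ := by
    refine norm_low (fun i => Pp d (φ i)) (fun i => inner_Pp (φ i)) (fun i => Pp_idem (h2 i))
      (Pp_sum h3) T hcT hδ0 fun i u => ?_
    set v := Pp d (φ i) u with hv
    have e1 : (⟪v, T v⟫_ℂ).re = (⟪v, K0 d F v⟫_ℂ).re + (lam i - E) * ‖v‖ ^ 2 := by
      rw [hTa, KS_split, _root_.add_apply, hv, KF_Pp (h1 i), ← hv, inner_sub_right, inner_add_right,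
        inner_smul_right, inner_smul_right, Complex.sub_re, Complex.add_re,
        inner_self_eq_norm_sq_to_K, Complex.re_ofReal_mul, Complex.re_ofReal_mul]
      have : (((‖v‖ : ℝ) : ℂ) ^ 2).re = ‖v‖ ^ 2 := ASF.ofReal_sq_re _
      have h5 : ((RCLike.ofReal ‖v‖ : ℂ) ^ 2).re = ‖v‖ ^ 2 := this
      rw [h5]
      ring
    have e2 := re_K0 v
    have e3 : |(⟪v, T v⟫_ℂ).re| ≤ ‖v‖ * ‖T v‖ :=
      (Complex.abs_re_le_norm _).trans (norm_inner_le_norm _ _)
    have e4 : δ * ‖v‖ ^ 2 ≤ ‖v‖ * ‖T v‖ := by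
      refine le_trans ?_ e3
      have h0 : 0 ≤ ‖v‖ ^ 2 := by positivity
      rcases hgap i with h | h
      · refine le_trans ?_ (le_abs_self _)
        rw [e1]
        nlinarith [e2.1, mul_le_mul_of_nonneg_right h h0]
      · refine le_trans ?_ (neg_le_abs _)
        rw [e1]
        nlinarith [e2.2, mul_le_mul_of_nonneg_right h h0]
    rcases eq_or_lt_of_le (norm_nonneg v) with h | h
    · rw [← h, mul_zero]
      exact norm_nonneg _
    · have : ‖v‖ * (δ * ‖v‖) ≤ ‖v‖ * ‖T v‖ := by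
        calc _ = δ * ‖v‖ ^ 2 := by ring
          _ ≤ _ := e4
      exact le_of_mul_le_mul_left this h
  -- the bound for the perturbed operator
  have hsym : ∀ u v, ⟪HS κ c w u, v⟫_ℂ = ⟪u, HS κ c w v⟫_ℂ := fun u v => by
    have hsa : IsSelfAdjoint (HS κ c w) := (modelS d F κ hc).sa w
    exact (ContinuousLinearMap.isSelfAdjoint_iff_isSymmetric.1 hsa) u v
  refine not_mem_of_norm hsym (sub_pos.2 hδ) (fun u => ?_) hE
  have e1 : HS κ c w u - (E : ℂ) • u = T u + potL c w u := by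
    rw [hTa]
    unfold HS
    rw [_root_.add_apply]
    abel
  have e2 : ‖potL c w u‖ ≤ c * ‖u‖ := by
    refine (ContinuousLinearMap.le_opNorm _ _).trans ?_
    refine mul_le_mul_of_nonneg_right ?_ (norm_nonneg _)
    exact (norm_potL_le _ c w).trans (le_of_eq (abs_of_pos hc))
  rw [e1]
  have e3 := norm_sub_norm_le (T u) (-(potL c w u))
  rw [sub_neg_eq_add, norm_neg] at e3
  have e4 := hlow u
  rw [sub_mul]
  linarith

end Pool.Agent.Lib.MP_562b47_mp.SYG
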