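import Mathlib
import Pool.Agent.Lib.MP_562b47_mp.SYG.Fin
import Pool.Agent.Lib.MP_562b47_mp.SYG.Gap

/-!
MP_562b47, `ℤ² × F`, end of the assembly: local box bounds at all energies of the interior of the
almost sure spectrum imply that the Anderson operator is almost surely purely singular.  The spectrum
is the union of the intervals `[l - c, 8 + l + c]`, `l` the eigenvalues of the fibre; it may have gaps.
-/

open MeasureTheory Set Filter Topology Complex
open scoped Real ENNReal NNReal InnerProductSpace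

set_option linter.unusedSectionVars false

namespace Pool.Agent.Lib.MP_562b47_mp.SYG

open Pool.Agent.Lib.MP_562b47_mp.QP Pool.Agent.Lib.MP_562b47_mp.QL

section

variable {Λ : Type*} [DecidableEq Λ] {E : Type*}
  [NormedAddCommGroup E] [InnerProductSpace ℂ E] [CompleteSpace E] {c : ℝ} {e : Λ → E}
  {H : (Λ → ℝ) → (E →L[ℂ] E)}

theorem singV_all' (M : Model c e H) {ω : Λ → ℝ} (h : ∀ x, SingV (H ω) (e x)) (u : E) :
    SingV (H ω) u := by
  refine singV_of_approx (M.sa ω) fun ε hε => ?_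
  have h1 : Tendsto (fun s : Finset Λ => ‖u - ∑ w ∈ s, ⟪e w, u⟫_ℂ • e w‖ ^ 2) atTop (𝓝 0) := by
    have h2 : Tendsto (fun s : Finset Λ => u - ∑ w ∈ s, ⟪e w, u⟫_ℂ • e w) atTop (𝓝 (u - u)) :=
      tendsto_const_nhds.sub (M.hasSum_repr u)
    rw [sub_self] at h2
    have h3 := h2.norm.pow 2
    simpa using h3
  obtain ⟨s, hs⟩ := (h1.eventually_le_const hε).exists
  refine ⟨_, ?_, hs⟩
  clear hs
  induction s using Finset.induction_on with
  | empty => rw [Finset.sum_empty]; exact singV_zero _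
  | insert w s hw ih =>
    rw [Finset.sum_insert hw]
    exact SingV.add (M.sa ω) ((h w).smul _) ih

end

/-- the spectral measure does not charge the complement of a closed set containing the spectrum -/
theorem spec_compl {E : Type*} [NormedAddCommGroup E] [InnerProductSpace ℂ E] [CompleteSpace E]
    {H : E →L[ℂ] E} {u : E} {μ : Measure ℝ} [IsFiniteMeasure μ]
    (hs : IsSpec H u μ) {T : Set ℝ} (hT : IsClosed T) (hT0 : T.Nonempty)
    (hsp : spectrum ℝ H ⊆ T) : μ Tᶜ = 0 := by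
  let f : BoundedContinuousFunction ℝ ℝ := BoundedContinuousFunction.mkOfBound
    ⟨fun x => min 1 (Metric.infDist x T),
      continuous_const.min (Metric.continuous_infDist_pt _)⟩ 2 (fun x y => by
      have h1 : ∀ x : ℝ, 0 ≤ min 1 (Metric.infDist x T) := fun x =>
        le_min zero_le_one Metric.infDist_nonneg
      have h2 : ∀ x : ℝ, min 1 (Metric.infDist x T) ≤ 1 := fun x => min_le_left _ _
      rw [Real.dist_eq, abs_le]
      constructor <;> simp only [ContinuousMap.coe_mk] <;> linarith [h1 x, h1 y, h2 x, h2 y])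
  have hf : ∀ x, f x = min 1 (Metric.infDist x T) := fun x => rfl
  have hf0 : ∀ x, 0 ≤ f x := fun x => by
    rw [hf]; exact le_min zero_le_one Metric.infDist_nonneg
  have h1 := hs f
  have h2 : cfc (⇑f) H = 0 := by
    have : cfc (⇑f) H = cfc (fun _ => (0 : ℝ)) H := by
      refine cfc_congr fun x hx => ?_
      rw [hf, Metric.infDist_zero_of_mem (hsp hx)]
      simp
    rw [this, cfc_const_zero]
  rw [h2] at h1
  have h3 : ∫ x, f x ∂μ = 0 := by
    have : ((∫ x, f x ∂μ : ℝ) : ℂ) = 0 := by rw [h1]; simp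
    exact_mod_cast this
  rw [integral_eq_zero_iff_of_nonneg hf0 (f.integrable μ)] at h3
  have h4 : ∀ᵐ x ∂μ, x ∈ T := by
    filter_upwards [h3] with x hx
    have hx' : min 1 (Metric.infDist x T) = 0 := hx
    have h5 : Metric.infDist x T = 0 := by
      rcases min_choice 1 (Metric.infDist x T) with h | h
      · rw [h] at hx'; norm_num at hx'
      · rw [← h]; exact hx'
    exact (hT.mem_iff_infDist_zero hT0).mpr h5
  exact h4

variable {F : Type} [Fintype F] [DecidableEq F] [SX.Thin F]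

/-- the interior of the spectrum up to finitely many points -/
def Uo (κ : F → ℝ) (c : ℝ) : Set ℝ := {E | ∃ l, FEv κ l ∧ E ∈ Ioo (l - c) (8 + l + c)}

/-- the closed set which contains the spectrum -/
def Tc (d : ℕ) (κ : F → ℝ) (c : ℝ) : Set ℝ := {E | ∃ l, FEv κ l ∧ E ∈ Icc (l - c) (4 * d + l + c)}

theorem Tc_eq (d : ℕ) (κ : F → ℝ) (c : ℝ) :
    Tc d κ c = ⋃ l ∈ {l | FEv κ l}, Icc (l - c) (4 * d + l + c) := by
  ext E
  simp only [Tc, Set.mem_setOf_eq, Set.mem_iUnion, exists_prop]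

theorem Tc_closed (d : ℕ) (κ : F → ℝ) (c : ℝ) : IsClosed (Tc d κ c) := by
  rw [Tc_eq]
  exact (FEv_finite κ).isClosed_biUnion fun l _ => isClosed_Icc

theorem Tc_nonempty [Nonempty F] (d : ℕ) (κ : F → ℝ) {c : ℝ} (hc : 0 < c) : (Tc d κ c).Nonempty := by
  obtain ⟨l, hl⟩ := FEv_nonempty κ
  have h1 : (0 : ℝ) ≤ d := Nat.cast_nonneg d
  exact ⟨l, l, hl, by constructor <;> linarith⟩

/-- the energies outside the spectrum -/
theorem noAC_out [Nonempty F] {d : ℕ} {κ : F → ℝ} {c : ℝ} (hc : 0 < c) (o : F)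
    (w : SX.St d F → ℝ) (ν : Measure ℝ) (hν : IsFiniteMeasure ν)
    (hs : IsSpec (HS κ c w) (eb (oS d o)) ν) : NoAC ν (Tc d κ c)ᶜ := by
  refine ASF.noAC_of_null ?_
  exact spec_compl hs (Tc_closed d κ c) (Tc_nonempty d κ hc) fun E hE => spectrum_HS hc w hE

/-- **Assembly**: local diffusive bounds at all energies of the interior of the spectrum. -/
theorem sing_of_local [Nonempty F] {κ : F → ℝ} {c : ℝ} (hc : 0 < c) (o : F)
    (h : ∀ Es ∈ Uo κ c, ∃ δ C a₀ : ℝ, 0 < δ ∧ 0 < a₀ ∧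
      ∀ E : ℝ, |E - Es| < δ → ∀ a : ℝ, 0 < a → a < a₀ →
        DE 2 κ c o ⟨E, a⟩ ≤ ENNReal.ofReal (C / a ^ 2)) :
    ∀ᵐ w ∂(PP (SX.St 2 F) c), ∀ ν : Measure ℝ, IsFiniteMeasure ν →
      IsSpec (HS κ c w) (eb (oS 2 o)) ν → ν ⟂ₘ volume := by
  choose! δ C a₀ hδ ha₀ hb using h
  obtain ⟨t, ht, htc, hcov⟩ := TopologicalSpace.countable_cover_nhdsWithin
    (s := Uo κ c) (f := fun Es => Metric.ball Es (δ Es))
    (fun Es hEs => mem_nhdsWithin_of_mem_nhds (Metric.ball_mem_nhds Es (hδ Es hEs)))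
  have h1 : ∀ Es ∈ t, ∀ᵐ w ∂(PP (SX.St 2 F) c), ∀ ν : Measure ℝ, IsFiniteMeasure ν →
      IsSpec (HS κ c w) (eb (oS 2 o)) ν → NoAC ν (Metric.ball Es (δ Es)) := by
    intro Es hEs
    have hEs' := ht hEs
    refine local_sing hc o Metric.isOpen_ball.measurableSet (C := max (C Es) 0)
      (η₁ := min (a₀ Es) 1) (lt_min (ha₀ Es hEs') one_pos) fun E hE η hη hη1 => ?_
    refine (hb Es hEs' E (by rwa [Metric.mem_ball, Real.dist_eq] at hE) η hη
      (hη1.trans_le (min_le_left _ _))).trans (ENNReal.ofReal_le_ofReal ?_)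
    have hlog : 0 ≤ Real.log (1 / η) := by
      apply Real.log_nonneg
      rw [le_div_iff₀ hη, one_mul]
      exact hη1.le.trans (min_le_right _ _)
    apply div_le_div_of_nonneg_right _ (by positivity)
    have h2 : (0 : ℝ) ≤ max (C Es) 0 := le_max_right _ _
    have h3 := le_max_left (C Es) 0
    nlinarith
  have h2 := (ae_ball_iff htc).mpr h1
  filter_upwards [h2] with w hw ν hν hs
  have h3 : ∀ᵐ x ∂(volume : Measure ℝ), ∀ Es ∈ t, x ∈ Metric.ball Es (δ Es) → Dens ν x = 0 := by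
    rw [ae_ball_iff htc]
    intro Es hEs
    exact (ae_restrict_iff' Metric.isOpen_ball.measurableSet).mp (hw Es hEs ν hν hs)
  have h4 : ∀ᵐ x ∂(volume : Measure ℝ), x ∈ (Tc 2 κ c)ᶜ → Dens ν x = 0 :=
    (ae_restrict_iff' (Tc_closed 2 κ c).measurableSet.compl).mp (noAC_out hc o w ν hν hs)
  have h5 : ∀ᵐ x ∂(volume : Measure ℝ), ∀ l ∈ {l | FEv κ l}, x ≠ l - c ∧ x ≠ 8 + l + c := by
    rw [ae_ball_iff (FEv_finite κ).countable]
    intro l _
    exact (Measure.ae_ne volume (l - c)).and (Measure.ae_ne volume (8 + l + c))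
  rw [← Measure.rnDeriv_eq_zero]
  filter_upwards [h3, h4, h5, Measure.rnDeriv_lt_top ν volume] with x hx hx2 hx3 hx4
  have h6 : Dens ν x = 0 := by
    by_cases hxI : x ∈ Tc 2 κ c
    · have h7 : x ∈ Uo κ c := by
        obtain ⟨l, hl, a1, a2⟩ := hxI
        push_cast at a2
        have a3 := hx3 l hl
        exact ⟨l, hl, lt_of_le_of_ne a1 (Ne.symm a3.1), lt_of_le_of_ne (by linarith) a3.2⟩
      obtain ⟨Es, hEs, hxE⟩ := mem_iUnion₂.mp (hcov h7)
      exact hx Es hEs hxE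
    · exact hx2 hxI
  unfold Dens at h6
  have h8 := (mul_eq_zero.mp h6).resolve_left Real.pi_ne_zero
  rcases (ENNReal.toReal_eq_zero_iff _).mp h8 with h | h
  · exact h
  · exact absurd h hx4.ne

/-- **Assembly**: local box bounds at all energies of the interior of the spectrum imply that almost
surely all spectral measures are singular. -/
theorem singV_of_box [Nonempty F] {κ : F → ℝ} {c : ℝ} (hc : 0 < c)
    (h : ∀ Es ∈ Uo κ c, ∃ δ C a₀ : ℝ, 0 < δ ∧ 0 < a₀ ∧
      ∀ E : ℝ, |E - Es| < δ → ∀ a : ℝ, 0 < a → a < a₀ → ∃ n₀ : ℕ, ∀ n ≥ n₀,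
        ∫ V, AL.DU (Ab 2 F κ E n) (xb 2 F n) (fun x => ((V x : ℝ) : ℂ) - a * Complex.I)
          ∂(Measure.pi fun _ : (Fin 2 → Fin n) × F => unif c) ≤ C * (n : ℝ) ^ 2) :
    ∀ᵐ w ∂(PP (SX.St 2 F) c), ∀ u, SingV (HS κ c w) u := by
  have := unif_prob hc
  set M := modelS 2 F κ hc with hM
  have hloc : ∀ o : F, ∀ Es ∈ Uo κ c, ∃ δ C a₀ : ℝ, 0 < δ ∧ 0 < a₀ ∧
      ∀ E : ℝ, |E - Es| < δ → ∀ a : ℝ, 0 < a → a < a₀ →
        DE 2 κ c o ⟨E, a⟩ ≤ ENNReal.ofReal (C / a ^ 2) := by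
    intro o Es hEs
    obtain ⟨δ, C, a₀, hδ, ha₀, hb⟩ := h Es hEs
    refine ⟨δ, max C 0, a₀, hδ, ha₀, fun E hE a ha haa => ?_⟩
    obtain ⟨n₀, hn⟩ := hb E hE a ha haa
    refine lim_box hc ha (le_max_right _ _) (n₀ := n₀) (fun n hn' => (hn n hn').trans ?_) o
    exact mul_le_mul_of_nonneg_right (le_max_left _ _) (by positivity)
  have h1 : ∀ o : F, ∀ᵐ w ∂(PP (SX.St 2 F) c), SingV (HS κ c w) (eb (oS 2 o)) := by
    intro o
    filter_upwards [sing_of_local hc o (hloc o)] with w hw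
    obtain ⟨ν, hfin, hν⟩ := exists_isSpec (M.sa w) (eb (oS 2 o))
    exact singV_of_sing (M.sa w) hν (hw ν hfin hν)
  have h2 : ∀ᵐ w ∂(PP (SX.St 2 F) c), ∀ x : SX.St 2 F,
      SingV (HS κ c fun j => w (shE F x.1 j)) (eb (oS 2 x.2)) := by
    rw [ae_all_iff]
    intro x
    have h3 : MeasurePreserving (fun w : SX.St 2 F → ℝ => fun j => w (shE F x.1 j))
        (PP (SX.St 2 F) c) (PP (SX.St 2 F) c) := mp_perm (unif c) (shE F x.1)
    exact h3.quasiMeasurePreserving.ae (h1 x.2)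
  filter_upwards [h2] with w hw u
  refine singV_all' M (fun x => ?_) u
  have h3 := hw x
  unfold SingV at h3 ⊢
  refine h3.congr fun k => lintegral_congr fun s => ?_
  have hz := Zt_im_pos (tk_pos k) s
  have h4 : ∀ (w : SX.St 2 F → ℝ) (x : SX.St 2 F), ENNReal.ofReal (Zt (tk k) s).im
      * ‖Rv (HS κ c w) (Zt (tk k) s) (eb x)‖ₑ ^ 2
      = ENNReal.ofReal (Gr eb (HS κ c) w (Zt (tk k) s) x x).im := by
    intro w x
    unfold Gr
    rw [im_inner_Rv (M.sa w) hz.ne', ENNReal.ofReal_mul hz.le, ENNReal.ofReal_pow (norm_nonneg _),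
      ofReal_norm]
  rw [h4, h4, covS hc x.1 w hz, zero_add]

end Pool.Agent.Lib.MP_562b47_mp.SYG
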