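import Mathlib

/-!
MP_562b47: the compression of the nearest-neighbour operator of `ℤ^(2+k)` to `ℤ² × K`, `K` a finite
subset of `ℤ^k`, in terms of the graph Laplacian of `ℤ² × K` and the number of missing neighbours.
-/

namespace Pool.Agent.Lib.MP_562b47_mp.SYG

variable {k : ℕ}

open Classical in
/-- extension by zero of a function on `ℤ² × K` to `ℤ^(2+k)` -/
noncomputable def ez {K : Finset (Fin k → ℤ)} (u : (Fin 2 → ℤ) × K → ℂ) (j : Fin (2 + k) → ℤ) : ℂ :=
  if h : (fun i => j (Fin.natAdd 2 i)) ∈ K then u (fun i => j (Fin.castAdd k i), ⟨_, h⟩) else 0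

theorem ez_append {K : Finset (Fin k → ℤ)} (u : (Fin 2 → ℤ) × K → ℂ) (x : Fin 2 → ℤ)
    (y : Fin k → ℤ) (hy : y ∈ K) : ez u (Fin.append x y) = u (x, ⟨y, hy⟩) := by
  unfold ez
  have h1 : (fun i => Fin.append x y (Fin.natAdd 2 i)) = y := by
    funext i
    rw [Fin.append_right]
  have h2 : (fun i => Fin.append x y (Fin.castAdd k i)) = x := by
    funext i
    rw [Fin.append_left]
  have h3 : (fun i => Fin.append x y (Fin.natAdd 2 i)) ∈ K := by rw [h1]; exact hy
  rw [dif_pos h3]
  congr 1
  exact Prod.ext h2 (Subtype.ext h1)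

theorem ez_append_not {K : Finset (Fin k → ℤ)} (u : (Fin 2 → ℤ) × K → ℂ) (x : Fin 2 → ℤ)
    (y : Fin k → ℤ) (hy : y ∉ K) : ez u (Fin.append x y) = 0 := by
  unfold ez
  have h1 : (fun i => Fin.append x y (Fin.natAdd 2 i)) = y := by
    funext i
    rw [Fin.append_right]
  rw [dif_neg (by rw [h1]; exact hy)]

theorem append_long (x : Fin 2 → ℤ) (y : Fin k → ℤ) (a : Fin 2) (t : ℤ) :
    Fin.append x y + Pi.single (Fin.castAdd k a) t = Fin.append (x + Pi.single a t) y := by
  funext b
  refine Fin.addCases (fun a' => ?_) (fun i => ?_) b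
  · rw [Pi.add_apply, Fin.append_left, Fin.append_left, Pi.add_apply]
    congr 1
    by_cases h : a' = a
    · subst h
      rw [Pi.single_eq_same, Pi.single_eq_same]
    · rw [Pi.single_eq_of_ne h, Pi.single_eq_of_ne fun h' => h (Fin.castAdd_injective 2 k h')]
  · rw [Pi.add_apply, Fin.append_right, Fin.append_right, Pi.single_eq_of_ne, add_zero]
    intro h
    have := congrArg Fin.val h
    simp only [Fin.val_natAdd, Fin.val_castAdd] at this
    omega

theorem append_thin (x : Fin 2 → ℤ) (y : Fin k → ℤ) (i : Fin k) (t : ℤ) :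
    Fin.append x y + Pi.single (Fin.natAdd 2 i) t = Fin.append x (y + Pi.single i t) := by
  funext b
  refine Fin.addCases (fun a' => ?_) (fun i' => ?_) b
  · rw [Pi.add_apply, Fin.append_left, Fin.append_left, Pi.single_eq_of_ne, add_zero]
    intro h
    have := congrArg Fin.val h
    simp only [Fin.val_natAdd, Fin.val_castAdd] at this
    omega
  · rw [Pi.add_apply, Fin.append_right, Fin.append_right, Pi.add_apply]
    congr 1
    by_cases h : i' = i
    · subst h
      rw [Pi.single_eq_same, Pi.single_eq_same]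
    · rw [Pi.single_eq_of_ne h, Pi.single_eq_of_ne]
      intro h'
      apply h
      have := congrArg Fin.val h'
      simp only [Fin.val_natAdd] at this
      exact Fin.ext (by omega)

/-- one neighbour in a thin direction -/
theorem ez_one {K : Finset (Fin k → ℤ)} (u : (Fin 2 → ℤ) × K → ℂ) (x : Fin 2 → ℤ)
    (y : Fin k → ℤ) (z : ℂ) : ez u (Fin.append x y) - z =
      (∑ g : K, if g.1 = y then u (x, g) - z else 0) - (if y ∈ K then 0 else 1) * z := by
  by_cases hy : y ∈ K
  · rw [ez_append u x y hy, if_pos hy, zero_mul, sub_zero,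
      Finset.sum_eq_single (⟨y, hy⟩ : K)]
    · rw [if_pos rfl]
    · intro g _ hg
      rw [if_neg fun h => hg (Subtype.ext h)]
    · intro h
      exact absurd (Finset.mem_univ _) h
  · rw [ez_append_not u x y hy, if_neg hy, Finset.sum_eq_zero]
    · ring
    · intro g _
      rw [if_neg]
      intro h
      exact hy (h ▸ g.2)

/-- the nearest-neighbour graph of `K` -/
def nn (K : Finset (Fin k → ℤ)) : SimpleGraph K where
  Adj f g := ∃ i, g.1 = f.1 + Pi.single i 1 ∨ g.1 = f.1 - Pi.single i 1
  symm := ⟨by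
    rintro f g ⟨i, h | h⟩
    · exact ⟨i, Or.inr (by rw [h]; ring)⟩
    · exact ⟨i, Or.inl (by rw [h]; ring)⟩⟩
  loopless := ⟨by
    rintro f ⟨i, h | h⟩
    · have := congrFun h i
      rw [Pi.add_apply, Pi.single_eq_same] at this
      omega
    · have := congrFun h i
      rw [Pi.sub_apply, Pi.single_eq_same] at this
      omega⟩

/-- the number of neighbours in `ℤ^k` which are not in `K` -/
noncomputable def miss (K : Finset (Fin k → ℤ)) (f : K) : ℝ :=
  ∑ i : Fin k, ((if f.1 + Pi.single i 1 ∈ K then 0 else 1) +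
    (if f.1 - Pi.single i 1 ∈ K then 0 else 1))

open Classical in
theorem sum_nn {K : Finset (Fin k → ℤ)} (v : K → ℂ) (f : K) :
    ∑ g : K, (if (nn K).Adj f g then v g else 0) = ∑ i : Fin k,
      ((∑ g : K, if g.1 = f.1 + Pi.single i 1 then v g else 0) +
        (∑ g : K, if g.1 = f.1 - Pi.single i 1 then v g else 0)) := by
  have h1 : ∀ i : Fin k, (∑ g : K, if g.1 = f.1 + Pi.single i 1 then v g else 0) +
      (∑ g : K, if g.1 = f.1 - Pi.single i 1 then v g else 0) =
      ∑ g : K, ((if g.1 = f.1 + Pi.single i 1 then v g else 0) +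
        (if g.1 = f.1 - Pi.single i 1 then v g else 0)) := fun i => by
    rw [← Finset.sum_add_distrib]
  rw [Finset.sum_congr rfl fun i _ => h1 i, Finset.sum_comm]
  refine Finset.sum_congr rfl fun g _ => ?_
  by_cases h : (nn K).Adj f g
  · rw [if_pos h]
    obtain ⟨i, hi⟩ := h
    rw [Finset.sum_eq_single i]
    · rcases hi with hi | hi
      · rw [if_pos hi, if_neg, add_zero]
        intro h2
        have h3 := congrFun (hi.symm.trans h2) i
        rw [Pi.add_apply, Pi.sub_apply, Pi.single_eq_same] at h3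
        omega
      · rw [if_pos hi, if_neg, zero_add]
        intro h2
        have h3 := congrFun (hi.symm.trans h2) i
        rw [Pi.add_apply, Pi.sub_apply, Pi.single_eq_same] at h3
        omega
    · intro j _ hj
      have hz : ∀ s t : ℤ, s ≠ 0 → f.1 + Pi.single i s ≠ f.1 + Pi.single j t := by
        intro s t hs h2
        have h3 := congrFun h2 i
        rw [Pi.add_apply, Pi.add_apply, Pi.single_eq_same,
          Pi.single_eq_of_ne (Ne.symm hj)] at h3
        omega
      have e1 : ∀ l : Fin k, f.1 - Pi.single l (1 : ℤ) = f.1 + Pi.single l (-1) := by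
        intro l
        rw [sub_eq_add_neg, ← Pi.single_neg]
      rcases hi with hi | hi
      · rw [if_neg, if_neg, add_zero]
        · rw [e1, hi]
          exact hz 1 (-1) (by norm_num)
        · rw [hi]
          exact hz 1 1 (by norm_num)
      · rw [if_neg, if_neg, add_zero]
        · rw [e1, hi, e1]
          exact hz (-1) (-1) (by norm_num)
        · rw [hi, e1]
          exact hz (-1) 1 (by norm_num)
    · intro h
      exact absurd (Finset.mem_univ _) h
  · rw [if_neg h]
    symm
    refine Finset.sum_eq_zero fun i _ => ?_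
    rw [if_neg, if_neg, add_zero]
    · exact fun h2 => h ⟨i, Or.inr h2⟩
    · exact fun h2 => h ⟨i, Or.inl h2⟩

theorem ite_cast (p : Prop) [Decidable p] :
    (((if p then 0 else 1 : ℝ)) : ℂ) = if p then 0 else 1 := by
  split_ifs <;> simp

open Classical in
/-- the compression in terms of the graph Laplacian -/
theorem comp_eq {K : Finset (Fin k → ℤ)} (u : (Fin 2 → ℤ) × K → ℂ) (x : Fin 2 → ℤ) (f : K) :
    -∑ i : Fin (2 + k), ((ez u (Fin.append x f.1 + Pi.single i 1) - u (x, f)) +
      (ez u (Fin.append x f.1 - Pi.single i 1) - u (x, f))) =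
    -∑ i : Fin 2, ((u (x + Pi.single i 1, f) - u (x, f)) + (u (x - Pi.single i 1, f) - u (x, f)))
    - ∑ g : K, (if (nn K).Adj f g then u (x, g) - u (x, f) else 0)
    + (miss K f : ℂ) * u (x, f) := by
  have e1 : ∀ {n : ℕ} (j : Fin n → ℤ) (l : Fin n), j - Pi.single l (1 : ℤ) = j + Pi.single l (-1) := by
    intro n j l
    rw [sub_eq_add_neg, ← Pi.single_neg]
  rw [Fin.sum_univ_add, sum_nn]
  have h1 : ∀ a : Fin 2, (ez u (Fin.append x f.1 + Pi.single (Fin.castAdd k a) 1) - u (x, f)) +
      (ez u (Fin.append x f.1 - Pi.single (Fin.castAdd k a) 1) - u (x, f)) =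
      (u (x + Pi.single a 1, f) - u (x, f)) + (u (x - Pi.single a 1, f) - u (x, f)) := by
    intro a
    rw [e1, append_long, append_long, ez_append u _ f.1 f.2, ez_append u _ f.1 f.2, ← e1]
  have h2 : ∀ i : Fin k, (ez u (Fin.append x f.1 + Pi.single (Fin.natAdd 2 i) 1) - u (x, f)) +
      (ez u (Fin.append x f.1 - Pi.single (Fin.natAdd 2 i) 1) - u (x, f)) =
      ((∑ g : K, if g.1 = f.1 + Pi.single i 1 then u (x, g) - u (x, f) else 0) +
        (∑ g : K, if g.1 = f.1 - Pi.single i 1 then u (x, g) - u (x, f) else 0)) -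
      (((if f.1 + Pi.single i 1 ∈ K then 0 else 1) +
        (if f.1 - Pi.single i 1 ∈ K then 0 else 1) : ℝ) : ℂ) * u (x, f) := by
    intro i
    rw [e1, append_thin, append_thin, ez_one, ez_one, ← e1, Complex.ofReal_add, ite_cast, ite_cast]
    ring
  rw [Finset.sum_congr rfl fun a _ => h1 a, Finset.sum_congr rfl fun i _ => h2 i,
    Finset.sum_sub_distrib, ← Finset.sum_mul]
  unfold miss
  rw [Complex.ofReal_sum]
  ring

end Pool.Agent.Lib.MP_562b47_mp.SYG
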