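import Mathlib
import Pool.Agent.Lib.MP_562b47_mp.SYG.Asm
import Pool.Agent.Lib.MP_562b47_mp.SYC.Box

/-!
MP_562b47, `ℤ² × V`, `V` a finite connected graph with an arbitrary potential: final form.
-/

open MeasureTheory Set Filter Topology Complex
open scoped Real ENNReal NNReal InnerProductSpace

namespace Pool.Agent.Lib.MP_562b47_mp.SYG

open Pool.Agent.Lib.MP_562b47_mp

/-- the cross-section given by a connected graph -/
@[reducible] noncomputable def thinOf {V : Type} (G : SimpleGraph V) (hG : G.Connected) : SX.Thin V where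
  B := G.Adj
  dec := Classical.decRel _
  symm := fun h => h.symm
  irr := fun f h => G.loopless.irrefl f h
  conn := fun S hS hcl f => by
    obtain ⟨s, hs⟩ := hS
    obtain ⟨p⟩ := hG.preconnected s f
    induction p with
    | nil => exact hs
    | cons h _ ih => exact ih (hcl _ hs _ h)

theorem fiber_sing {V : Type} [Fintype V] [DecidableEq V] [SX.Thin V] [Nonempty V] (κ : V → ℝ)
    {c : ℝ} (hc : 0 < c) :
    ∀ᵐ w ∂(PP (SX.St 2 V) c), ∀ u, SingV (HS κ c w) u :=
  singV_of_box hc fun Es ⟨l, hl, h1, h2⟩ => by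
    obtain ⟨δ, C, a₀, hδ, ha₀, -, h⟩ := SYC.box (d := 2) (F := V) hc le_rfl hl h1
      (by push_cast; linarith)
    exact ⟨δ, C, a₀, hδ, ha₀, h⟩

/-- final form -/
theorem graph_sing {V : Type} [Fintype V] (G : SimpleGraph V) [DecidableRel G.Adj]
    (hG : G.Connected) (W : V → ℝ) {c : ℝ} (hc : 0 < c) :
    ∀ᵐ ω ∂(PP ((Fin 2 → ℤ) × V) c),
      ∃ H : L2 ((Fin 2 → ℤ) × V) →L[ℂ] L2 ((Fin 2 → ℤ) × V),
      (∀ (u : L2 ((Fin 2 → ℤ) × V)) (x : Fin 2 → ℤ) (f : V), H u (x, f) =
        -∑ i : Fin 2, ((u (x + Pi.single i 1, f) - u (x, f)) +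
          (u (x - Pi.single i 1, f) - u (x, f)))
        - ∑ g : V, (if G.Adj f g then u (x, g) - u (x, f) else 0)
        + ((W f : ℂ) + (ω (x, f) : ℂ)) * u (x, f)) ∧ IsSelfAdjoint H ∧
      ∀ u, ∃ μ : Measure ℝ, (IsFiniteMeasure μ ∧ IsSpec H u μ) ∧ μ ⟂ₘ volume := by
  classical
  have := unif_prob hc
  letI : SX.Thin V := thinOf G hG
  haveI : Nonempty V := hG.nonempty
  set κ : V → ℝ := fun f => (∑ g : V, if G.Adj f g then (1 : ℝ) else 0) + W f with hκ
  have h1 := fiber_sing κ hc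
  have h3 : ∀ᵐ ω ∂(PP (SX.St 2 V) c), ∀ j, ω j ∈ Set.Icc (-c) c := by
    rw [ae_all_iff]
    intro j
    exact (measurePreserving_eval_infinitePi
      (fun _ : SX.St 2 V => unif c) j).quasiMeasurePreserving.ae (ae_unif c)
  filter_upwards [h1, h3] with ω hω hω2
  have hsa := (modelS 2 V κ hc).sa ω
  refine ⟨HS κ c ω, fun u x f => ?_, hsa, fun u => ?_⟩
  · rw [HS_apply, clp_of_mem (hω2 (x, f))]
    have e1 : ∑ g : V, (if G.Adj f g then u (x, g) - u (x, f) else 0) =
        SX.tb (fun g => u (x, g)) f - (∑ g : V, if G.Adj f g then (1 : ℂ) else 0) * u (x, f) := by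
      unfold SX.tb
      rw [Finset.sum_mul, ← Finset.sum_sub_distrib]
      refine Finset.sum_congr rfl fun g _ => ?_
      by_cases h : G.Adj f g
      · have h' : SX.Thin.B f g := h
        rw [if_pos h, if_pos h, if_pos h', one_mul]
      · have h' : ¬ SX.Thin.B f g := h
        rw [if_neg h, if_neg h, if_neg h', zero_mul, sub_zero]
    have e2 : ∀ i : Fin 2, (u (x + Pi.single i 1, f) - u (x, f)) +
        (u (x - Pi.single i 1, f) - u (x, f)) =
        (u (GD.sh x i 1, f) + u (GD.sh x i (-1), f)) - 2 * u (x, f) := by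
      intro i
      have a1 : GD.sh x i 1 = x + Pi.single i 1 := by
        rw [GX.sh_eq_add]
      have a2 : GD.sh x i (-1) = x - Pi.single i 1 := by
        rw [GX.sh_neg_eq_sub]
      rw [a1, a2]
      ring
    have e3 : ((∑ g : V, (if G.Adj f g then (1 : ℝ) else 0) : ℝ) : ℂ) =
        ∑ g : V, if G.Adj f g then (1 : ℂ) else 0 := by
      rw [Complex.ofReal_sum]
      refine Finset.sum_congr rfl fun g _ => ?_
      split_ifs <;> simp
    rw [e1, Finset.sum_congr rfl fun i _ => e2 i]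
    unfold SX.nbs GD.nbs
    simp only [Finset.sum_sub_distrib, Finset.sum_const, Finset.card_univ, Fintype.card_fin,
      nsmul_eq_mul, hκ]
    rw [Complex.ofReal_add, Complex.ofReal_add, Complex.ofReal_add, e3]
    push_cast
    ring
  · obtain ⟨μ, hfin, hμ⟩ := exists_isSpec hsa u
    exact ⟨μ, ⟨hfin, hμ⟩, (hω u).sing hsa hμ⟩

end Pool.Agent.Lib.MP_562b47_mp.SYG
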