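import Pool.Agent.Lib.MP_562b47_mp.SYG.Defs
import Pool.Agent.Lib.MP_562b47_mp.AS.Fin

/-!
MP_562b47, slabs: the operator on `ℓ²(ℤ^d × F)`.
-/

open MeasureTheory Set Filter Topology Complex
open scoped Real ENNReal NNReal InnerProductSpace

namespace Pool.Agent.Lib.MP_562b47_mp.SYG

open Pool.Agent.Lib.MP_562b47_mp

/-! ### Permutations of the coordinates -/

theorem mp_perm {X Λ : Type*} [MeasurableSpace X] (μ : Measure X) [IsProbabilityMeasure μ]
    (σ : Equiv.Perm Λ) :
    MeasurePreserving (fun ω : Λ → X => fun j => ω (σ j))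
      (Measure.infinitePi (fun _ : Λ => μ)) (Measure.infinitePi (fun _ : Λ => μ)) := by
  refine ⟨by fun_prop, ?_⟩
  refine Measure.eq_infinitePi _ fun s t ht => ?_
  have hms : MeasurableSet (Set.pi (s : Set Λ) t) := MeasurableSet.pi s.countable_toSet fun i _ => ht i
  rw [Measure.map_apply (by fun_prop) hms]
  have e1 : (fun ω : Λ → X => fun j => ω (σ j)) ⁻¹' (Set.pi (s : Set Λ) t)
      = Set.pi ((s.map σ.toEmbedding : Finset Λ) : Set Λ) (fun i => t (σ.symm i)) := by
    ext ω
    simp only [mem_preimage, Set.mem_pi, Finset.mem_coe, Finset.mem_map,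
      Equiv.coe_toEmbedding]
    constructor
    · rintro h i ⟨j, hj, rfl⟩
      have := h j hj
      simpa using this
    · intro h i hi
      have := h (σ i) ⟨i, hi, rfl⟩
      simpa using this
  rw [e1, Measure.infinitePi_pi _ (fun i _ => ht _), Finset.prod_map]
  simp

variable {d : ℕ} {F : Type} [Fintype F] [DecidableEq F] [SX.Thin F]

/-- translation by `v` of the first component -/
def shE (F : Type) (v : Fin d → ℤ) : Equiv.Perm (SX.St d F) :=
  Equiv.prodCongr (Equiv.addRight v) (Equiv.refl F)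

omit [Fintype F] [DecidableEq F] [SX.Thin F] in
@[simp] theorem shE_apply (v : Fin d → ℤ) (x : SX.St d F) : shE F v x = (x.1 + v, x.2) := rfl

omit [Fintype F] [DecidableEq F] [SX.Thin F] in
theorem shE_symm (v : Fin d → ℤ) : (shE F v).symm = shE F (-v) := by
  ext x
  · simp [shE]
  · simp [shE]

/-- `(u (x, h)) ↦ 1_{h = f} u (x, g)` -/
noncomputable def PfL (f g : F) : L2 (SX.St d F) →L[ℂ] L2 (SX.St d F) :=
  (potL 1 fun x => if x.2 = f then 1 else 0) ∘L
    (permL (Equiv.prodCongr (Equiv.refl (Fin d → ℤ)) (Equiv.swap f g)))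

omit [Fintype F] [SX.Thin F] in
theorem PfL_apply (f g : F) (u : L2 (SX.St d F)) (x : SX.St d F) :
    PfL f g u x = if x.2 = f then u (x.1, g) else 0 := by
  unfold PfL
  rw [ContinuousLinearMap.comp_apply, potL_apply, permL_apply]
  by_cases h : x.2 = f
  · rw [if_pos h, if_pos h, clp_of_mem (by constructor <;> norm_num)]
    have h1 : (Equiv.prodCongr (Equiv.refl (Fin d → ℤ)) (Equiv.swap f g)) x = (x.1, g) := by
      rw [Equiv.prodCongr_apply]
      exact Prod.ext rfl (by simp [h])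
    rw [h1]
    simp
  · rw [if_neg h, if_neg h, clp_of_mem (by constructor <;> norm_num)]
    simp

omit [Fintype F] [SX.Thin F] in
theorem inner_PfL (f g : F) (u v : L2 (SX.St d F)) :
    ⟪PfL f g u, v⟫_ℂ = ⟪u, PfL g f v⟫_ℂ := by
  unfold PfL
  rw [ContinuousLinearMap.comp_apply, ContinuousLinearMap.comp_apply, inner_potL, inner_permL,
    permL_potL]
  have h1 : (Equiv.prodCongr (Equiv.refl (Fin d → ℤ)) (Equiv.swap f g)).symm
      = Equiv.prodCongr (Equiv.refl (Fin d → ℤ)) (Equiv.swap g f) := by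
    rw [Equiv.prodCongr_symm, Equiv.symm_swap, Equiv.swap_comm]
    rfl
  rw [h1]
  congr 2
  congr 1
  funext x
  simp only [Function.comp, Equiv.prodCongr_apply, Prod.map_snd]
  congr 1
  rw [eq_iff_iff]
  constructor
  · intro h
    have := congrArg (Equiv.swap g f) h
    rwa [Equiv.swap_apply_self, Equiv.swap_apply_right] at this
  · intro h
    rw [h, Equiv.swap_apply_left]

/-- the neighbours in the cross-section -/
noncomputable def tbL (d : ℕ) (F : Type) [Fintype F] [DecidableEq F] [SX.Thin F] :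
    L2 (SX.St d F) →L[ℂ] L2 (SX.St d F) :=
  ∑ f : F, ∑ g : F, if SX.Thin.B f g then PfL f g else 0

theorem tbL_apply (u : L2 (SX.St d F)) (x : SX.St d F) :
    tbL d F u x = SX.tb (fun g => u (x.1, g)) x.2 := by
  unfold tbL SX.tb
  simp only [_root_.sum_apply, lp.coeFn_sum, Finset.sum_apply]
  rw [Finset.sum_eq_single x.2]
  · refine Finset.sum_congr rfl fun g _ => ?_
    split_ifs with h
    · rw [PfL_apply, if_pos rfl]
    · rfl
  · intro f _ hf
    refine Finset.sum_eq_zero fun g _ => ?_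
    split_ifs with h
    · rw [PfL_apply, if_neg (Ne.symm hf)]
    · rfl
  · intro h
    exact absurd (Finset.mem_univ _) h

theorem inner_tbL (u v : L2 (SX.St d F)) : ⟪tbL d F u, v⟫_ℂ = ⟪u, tbL d F v⟫_ℂ := by
  unfold tbL
  simp only [_root_.sum_apply, sum_inner, inner_sum]
  rw [Finset.sum_comm]
  refine Finset.sum_congr rfl fun g _ => Finset.sum_congr rfl fun f _ => ?_
  by_cases h : SX.Thin.B f g
  · rw [if_pos h, if_pos (SX.Thin.symm h), inner_PfL]
  · rw [if_neg h, if_neg (fun h' => h (SX.Thin.symm h'))]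
    simp

/-- bound of the fibre potential -/
noncomputable def kb (κ : F → ℝ) : ℝ := ∑ f, |κ f|

omit [DecidableEq F] [SX.Thin F] in
theorem clp_kb (κ : F → ℝ) (f : F) : clp (kb κ) (κ f) = κ f := by
  have h := Finset.single_le_sum (f := fun f => |κ f|) (fun f _ => abs_nonneg _) (Finset.mem_univ f)
  exact clp_of_mem (abs_le.mp h)

/-- the free operator -/
noncomputable def KS (d : ℕ) (F : Type) [Fintype F] [DecidableEq F] [SX.Thin F] (κ : F → ℝ) :
    L2 (SX.St d F) →L[ℂ] L2 (SX.St d F) :=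
  (∑ i : Fin d, ((2:ℂ) • ContinuousLinearMap.id ℂ (L2 (SX.St d F)) - permL (shE F (uv d i))
    - permL (shE F (-(uv d i))))) + ((potL (kb κ) fun x => κ x.2) - tbL d F)

theorem KS_apply (κ : F → ℝ) (u : L2 (SX.St d F)) (x : SX.St d F) :
    KS d F κ u x = ((2 * d + κ x.2 : ℝ) : ℂ) * u x - SX.nbs u x := by
  unfold KS SX.nbs GD.nbs
  simp only [_root_.add_apply, _root_.sub_apply,
    _root_.smul_apply, _root_.sum_apply, ContinuousLinearMap.id_apply,
    lp.coeFn_sum, Finset.sum_apply, lp.coeFn_add, lp.coeFn_sub, Pi.add_apply, Pi.sub_apply,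
    lp.coeFn_smul, Pi.smul_apply, smul_eq_mul, permL_apply, tbL_apply, shE_apply]
  have h1 : ∀ i : Fin d, (2:ℂ) * u x - u (x.1 + uv d i, x.2) - u (x.1 + -(uv d i), x.2)
      = 2 * u x - (u (GD.sh x.1 i 1, x.2) + u (GD.sh x.1 i (-1), x.2)) := by
    intro i
    have e1 : x.1 + uv d i = GD.sh x.1 i 1 := (GX.sh_eq_add x.1 i 1).symm
    have e2 : x.1 + -(uv d i) = GD.sh x.1 i (-1) := by
      rw [GX.sh_neg_eq_sub, sub_eq_add_neg]
      rfl
    rw [e1, e2]
    ring
  rw [Finset.sum_congr rfl fun i _ => h1 i, Finset.sum_sub_distrib, Finset.sum_const,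
    Finset.card_univ, Fintype.card_fin, nsmul_eq_mul, potL_apply, clp_kb]
  push_cast
  ring

theorem isSelfAdjoint_KS (κ : F → ℝ) : IsSelfAdjoint (KS d F κ) := by
  refine isSelfAdjoint_of_symm fun u v => ?_
  unfold KS
  rw [_root_.add_apply, _root_.add_apply, inner_add_left,
    inner_add_right]
  congr 1
  · rw [_root_.sum_apply, _root_.sum_apply, sum_inner, inner_sum]
    refine Finset.sum_congr rfl fun i _ => ?_
    simp only [_root_.sub_apply, _root_.smul_apply,
      ContinuousLinearMap.id_apply, inner_sub_left, inner_sub_right, inner_smul_left,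
      inner_smul_right, inner_permL]
    rw [shE_symm, shE_symm, neg_neg]
    have : (starRingEnd ℂ) (2:ℂ) = 2 := by
      rw [show (2:ℂ) = ((2:ℝ):ℂ) by norm_num, Complex.conj_ofReal]
    rw [this]
    ring
  · simp only [_root_.sub_apply, inner_sub_left, inner_sub_right, inner_tbL, inner_potL]

theorem KS_star (κ : F → ℝ) (u : L2 (SX.St d F)) : KS d F κ (star u) = star (KS d F κ u) := by
  ext x
  rw [lp.star_apply, KS_apply, KS_apply]
  simp only [SX.nbs, GD.nbs, SX.tb, lp.star_apply, star_sub, star_mul', star_add, star_sum]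
  congr 1
  · simp [Complex.conj_ofReal]
  · congr 1
    refine Finset.sum_congr rfl fun g _ => ?_
    split_ifs <;> simp

/-- the Anderson operator on `ℤ^d × F` -/
noncomputable def HS (κ : F → ℝ) (c : ℝ) (w : SX.St d F → ℝ) : L2 (SX.St d F) →L[ℂ] L2 (SX.St d F) :=
  KS d F κ + potL c w

theorem HS_apply (κ : F → ℝ) (c : ℝ) (w : SX.St d F → ℝ) (u : L2 (SX.St d F)) (x : SX.St d F) :
    HS κ c w u x = ((2 * d + κ x.2 + clp c (w x) : ℝ) : ℂ) * u x - SX.nbs u x := by
  unfold HS
  rw [_root_.add_apply, lp.coeFn_add, Pi.add_apply, KS_apply, potL_apply]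
  push_cast
  ring

theorem modelS (d : ℕ) (F : Type) [Fintype F] [DecidableEq F] [SX.Thin F] (κ : F → ℝ) {c : ℝ}
    (hc : 0 < c) : Model c (eb : SX.St d F → L2 (SX.St d F)) (HS κ c) :=
  model_of_real (isSelfAdjoint_KS κ) (KS_star κ) hc

theorem HS_bdd (κ : F → ℝ) (c : ℝ) : ∃ K, ∀ w : SX.St d F → ℝ, ‖HS κ c w‖ ≤ K :=
  ⟨‖KS d F κ‖ + |c|, fun w => by
    unfold HS
    exact (norm_add_le _ _).trans (add_le_add le_rfl (norm_potL_le _ c w))⟩

theorem HS_permL (κ : F → ℝ) (c : ℝ) (w : SX.St d F → ℝ) (n : Fin d → ℤ) (u : L2 (SX.St d F)) :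
    permL (shE F n) (HS κ c w u) = HS κ c (fun x => w (shE F n x)) (permL (shE F n) u) := by
  ext x
  rw [permL_apply, HS_apply, HS_apply, permL_apply]
  congr 1
  unfold SX.nbs GD.nbs SX.tb
  simp only [permL_apply, shE_apply]
  congr 1
  refine Finset.sum_congr rfl fun i _ => ?_
  have h1 : ∀ t : ℤ, GD.sh (x.1 + n) i t = GD.sh x.1 i t + n := by
    intro t
    rw [GX.sh_eq_add, GX.sh_eq_add]
    abel
  rw [h1, h1]

/-- covariance of the Green function under translations along `ℤ^d` -/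
theorem covS {κ : F → ℝ} {c : ℝ} (hc : 0 < c) (n : Fin d → ℤ) (w : SX.St d F → ℝ) {z : ℂ} (hz : 0 < z.im)
    (x y : SX.St d F) :
    Gr eb (HS κ c) (fun x => w (shE F n x)) z x y
      = Gr eb (HS κ c) w z (x.1 + n, x.2) (y.1 + n, y.2) := by
  have hM := modelS d F κ hc
  have h1 : permL (shE F n) (eb (y.1 + n, y.2)) = eb y := permL_eb (shE F n) y
  have h2 : permL (shE F n) (eb (x.1 + n, x.2)) = eb x := permL_eb (shE F n) x
  unfold Gr
  rw [← h1, ← Rv_intertwine (hM.sa w) (hM.sa _) (HS_permL κ c w n) hz.ne', ← h2, inner_permL,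
    permL_symm_permL]

end Pool.Agent.Lib.MP_562b47_mp.SYG
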